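import Mathlib

set_option autoImplicit false

namespace Pool.Agent.H421Pyth

open Finset

variable {L : Type*} [Field L] [NumberField L]

/-- The sum of the squared absolute values of all conjugates. -/
noncomputable def TL (x : L) : ℝ := ∑ φ : L →ₐ[ℚ] ℂ, ‖φ x‖ ^ 2

theorem TL_nonneg (x : L) : 0 ≤ TL x := Finset.sum_nonneg fun _ _ => by positivity

theorem prod_norm_ge {x : L} (hx : x ≠ 0) (hi : IsIntegral ℤ x) :
    1 ≤ ∏ φ : L →ₐ[ℚ] ℂ, ‖φ x‖ := by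
  classical
  have h1 : ‖∏ φ : L →ₐ[ℚ] ℂ, φ x‖ = ∏ φ : L →ₐ[ℚ] ℂ, ‖φ x‖ := norm_prod _ _
  rw [← h1, ← Algebra.norm_eq_prod_embeddings ℚ ℂ x]
  obtain ⟨z, hz⟩ : ∃ z : ℤ, (z : ℚ) = Algebra.norm ℚ x := by
    have h2 : IsIntegral ℤ (Algebra.norm ℚ x) := Algebra.isIntegral_norm ℚ hi
    exact IsIntegrallyClosed.isIntegral_iff.mp h2
  have h3 : Algebra.norm ℚ x ≠ 0 := Algebra.norm_ne_zero_iff.mpr hx
  rw [← hz] at h3 ⊢
  have h4 : z ≠ 0 := by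
    intro h; apply h3; simp [h]
  have h5 : (1 : ℝ) ≤ |(z : ℝ)| := by
    have := Int.one_le_abs h4
    exact_mod_cast this
  simpa using h5

theorem TL_ge {x : L} (hx : x ≠ 0) (hi : IsIntegral ℤ x) :
    (Fintype.card (L →ₐ[ℚ] ℂ) : ℝ) ≤ TL x := by
  have h1 : ∀ φ : L →ₐ[ℚ] ℂ, 0 < ‖φ x‖ := fun φ => by
    rw [norm_pos_iff]
    simpa using hx
  have h2 : ∀ φ : L →ₐ[ℚ] ℂ, 1 + 2 * Real.log ‖φ x‖ ≤ ‖φ x‖ ^ 2 := fun φ => by
    have := Real.add_one_le_exp (Real.log (‖φ x‖ ^ 2))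
    rw [Real.exp_log (by have := h1 φ; positivity), Real.log_pow] at this
    push_cast at this
    linarith
  have h3 : 0 ≤ ∑ φ : L →ₐ[ℚ] ℂ, Real.log ‖φ x‖ := by
    rw [← Real.log_prod (fun φ _ => (h1 φ).ne')]
    exact Real.log_nonneg (prod_norm_ge hx hi)
  calc (Fintype.card (L →ₐ[ℚ] ℂ) : ℝ) ≤ ∑ φ : L →ₐ[ℚ] ℂ, (1 + 2 * Real.log ‖φ x‖) := by
        rw [Finset.sum_add_distrib, ← Finset.mul_sum]
        simp
        exact h3
    _ ≤ TL x := Finset.sum_le_sum fun φ _ => h2 φ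

/-- Composing all embeddings with an automorphism does not change `TL`. -/
theorem TL_aut (σ : L ≃ₐ[ℚ] L) (x : L) : TL (σ x) = TL x := by
  unfold TL
  let e : (L →ₐ[ℚ] ℂ) ≃ (L →ₐ[ℚ] ℂ) :=
    { toFun := fun φ => φ.comp σ.toAlgHom
      invFun := fun φ => φ.comp σ.symm.toAlgHom
      left_inv := fun φ => by ext y; simp
      right_inv := fun φ => by ext y; simp }
  exact Equiv.sum_comp e (fun φ : L →ₐ[ℚ] ℂ => ‖φ x‖ ^ 2)

end Pool.Agent.H421Pyth
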