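import Mathlib
import Pool.Agent.H421Pyth.T

set_option autoImplicit false

namespace Pool.Agent.H421Pyth

open Finset

/-- An involution-invariant sum without fixed-point contribution is twice an algebraic integer. -/
theorem sum_involution_even {L : Type*} [Field L] {M : ℕ} [NeZero M]
    (τ : ZMod M → ZMod M) (hτ : ∀ s, τ (τ s) = s) (F : ZMod M → L)
    (hF : ∀ s, F (τ s) = F s) (hF0 : ∀ s, τ s = s → F s = 0)
    (hFi : ∀ s, IsIntegral ℤ (F s)) : ∃ w : L, IsIntegral ℤ w ∧ ∑ s, F s = 2 * w := by
  classical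
  set P1 := Finset.univ.filter (fun s : ZMod M => s.val < (τ s).val) with hP1
  set P2 := Finset.univ.filter (fun s : ZMod M => (τ s).val < s.val) with hP2
  have h1 : ∑ s ∈ P2, F s = ∑ s ∈ P1, F s := by
    refine Finset.sum_bij (fun s _ => τ s) ?_ ?_ ?_ ?_
    · intro s hs
      simp only [hP1, hP2, Finset.mem_filter, Finset.mem_univ, true_and] at hs ⊢
      rw [hτ]; exact hs
    · intro a _ b _ hab
      have := congrArg τ hab
      simpa [hτ] using this
    · intro s hs
      refine ⟨τ s, ?_, hτ s⟩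
      simp only [hP1, hP2, Finset.mem_filter, Finset.mem_univ, true_and] at hs ⊢
      rw [hτ]; exact hs
    · intro s _
      exact (hF s).symm
  have h2 : ∑ s, F s = ∑ s ∈ P1, F s + ∑ s ∈ P2, F s := by
    rw [← Finset.sum_union]
    · symm
      apply Finset.sum_subset (Finset.subset_univ _)
      intro s _ hs
      apply hF0
      simp only [hP1, hP2, Finset.mem_union, Finset.mem_filter, Finset.mem_univ, true_and,
        not_or, not_lt] at hs
      exact ZMod.val_injective M (le_antisymm hs.1 hs.2)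
    · rw [Finset.disjoint_left]
      intro s h1 h2
      simp only [hP1, hP2, Finset.mem_filter, Finset.mem_univ, true_and] at h1 h2
      omega
  refine ⟨∑ s ∈ P1, F s, IsIntegral.sum _ fun s _ => hFi s, ?_⟩
  rw [h2, h1]; ring

/-- The key combinatorial lemma. -/
theorem key {L : Type*} [Field L] [NumberField L] (c : L ≃ₐ[ℚ] L)
    (hc : ∀ (φ : L →ₐ[ℚ] ℂ) (x : L), φ (c x) = starRingEnd ℂ (φ x))
    (M : ℕ) [NeZero M] (N m : ℕ) (hN : 2 ≤ N)
    (Y : Fin m → ZMod M → L) (hY : ∀ j s, IsIntegral ℤ (Y j s))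
    (hYc : ∀ j s, c (Y j s) = Y j (-s))
    (b : Fin N → ZMod M)
    (G1 : ∀ i i' k l, i ≠ i' → b k + b l = b i + b i' → (k = i ∧ l = i') ∨ (k = i' ∧ l = i))
    (G2 : ∀ i i' k l, i ≠ i' → b k - b l ≠ b i + b i')
    (G3 : ∀ i i' k l, i ≠ i' → - b k - b l ≠ b i + b i')
    (A : ZMod M → L)
    (hconv : ∀ t, ∑ j, ∑ s, Y j s * Y j (t - s) = A t)
    (hA0 : A 0 = 2 * N)
    (hAb : ∀ i, ∀ w : L, IsIntegral ℤ w → A (b i) ≠ 2 * w)
    (hAt : ∀ t, t ≠ 0 → (∀ i, t ≠ b i) → (∀ i, t ≠ - b i) → A t = 0) : N ≤ m := by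
  classical
  by_contra hmN
  rw [not_le] at hmN
  -- step 1
  have h1 : ∀ i, ∃ j, ∃ s, s + s = b i ∧ Y j s ≠ 0 := by
    intro i
    by_contra hcon
    push Not at hcon
    have h2 : ∀ j, ∃ w : L, IsIntegral ℤ w ∧ ∑ s, Y j s * Y j (b i - s) = 2 * w := by
      intro j
      refine sum_involution_even (fun s => b i - s) (fun s => by ring) _ ?_ ?_ ?_
      · intro s
        have : b i - (b i - s) = s := by ring
        rw [this, mul_comm]
      · intro s hs
        have : s + s = b i := by
          have h3 : b i - s = s := hs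
          calc s + s = (b i - s) + s := by rw [h3]
            _ = b i := by ring
        rw [hcon j s this, zero_mul]
      · intro s
        exact (hY j s).mul (hY j _)
    choose w hw hw2 using h2
    refine hAb i (∑ j, w j) (IsIntegral.sum _ fun j _ => hw j) ?_
    rw [← hconv, Finset.mul_sum]
    exact Finset.sum_congr rfl fun j _ => hw2 j
  choose jj ss hss hYne using h1
  have hYne' : ∀ i, Y (jj i) (- ss i) ≠ 0 := by
    intro i
    rw [← hYc]
    simpa using hYne i
  -- b injective etc
  have hbinj : ∀ i k, b i = b k → i = k := by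
    intro i k h
    by_contra hne
    have := G1 i k i i hne (by rw [h])
    rcases this with h | h
    · exact hne h.2
    · exact hne h.1
  have hbneg : ∀ i k, b i ≠ - b k := by
    intro i k h
    by_cases hik : i = k
    · subst hik
      obtain ⟨i', hi'⟩ : ∃ i' : Fin N, i' ≠ i := by
        by_cases h0 : i = ⟨0, by omega⟩
        · exact ⟨⟨1, by omega⟩, by rw [h0]; simp⟩
        · exact ⟨⟨0, by omega⟩, fun h => h0 h.symm⟩
      apply G2 i' i i' i hi'
      nth_rewrite 2 [h]
      ring
    · apply G2 i k i i hik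
      rw [h]; ring
  -- step 3 : counting
  set P : Finset (Fin m × ZMod M) := Finset.univ.filter (fun x => Y x.1 x.2 ≠ 0) with hP
  have hcard : (P.card : ℝ) ≤ 2 * N := by
    have hd : (0 : ℝ) < Fintype.card (L →ₐ[ℚ] ℂ) := by
      have : Nonempty (L →ₐ[ℚ] ℂ) := ⟨IsAlgClosed.lift⟩
      exact_mod_cast Fintype.card_pos
    have e1 : ∀ φ : L →ₐ[ℚ] ℂ, ∑ x : Fin m × ZMod M, ‖φ (Y x.1 x.2)‖ ^ 2 = 2 * N := by
      intro φ
      have e2 : (∑ x : Fin m × ZMod M, ((‖φ (Y x.1 x.2)‖ ^ 2 : ℝ) : ℂ)) = 2 * N := by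
        have e3 : φ (∑ j, ∑ s, Y j s * Y j (0 - s)) = 2 * N := by
          rw [hconv 0, hA0, map_mul, map_natCast, map_ofNat]
        rw [← e3, Fintype.sum_prod_type, map_sum]
        refine Finset.sum_congr rfl fun j _ => ?_
        rw [map_sum]
        refine Finset.sum_congr rfl fun s _ => ?_
        rw [zero_sub, ← hYc, map_mul, hc, Complex.mul_conj, Complex.normSq_eq_norm_sq]
      exact_mod_cast e2
    have e4 : ∑ x : Fin m × ZMod M, TL (Y x.1 x.2) = 2 * N * Fintype.card (L →ₐ[ℚ] ℂ) := by
      unfold TL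
      rw [Finset.sum_comm]
      rw [Finset.sum_congr rfl fun φ _ => e1 φ]
      simp
      ring
    have e5 : (P.card : ℝ) * Fintype.card (L →ₐ[ℚ] ℂ) ≤ ∑ x : Fin m × ZMod M, TL (Y x.1 x.2) := by
      calc (P.card : ℝ) * Fintype.card (L →ₐ[ℚ] ℂ)
          = ∑ x ∈ P, (Fintype.card (L →ₐ[ℚ] ℂ) : ℝ) := by simp
        _ ≤ ∑ x ∈ P, TL (Y x.1 x.2) := by
            refine Finset.sum_le_sum fun x hx => ?_
            simp only [hP, Finset.mem_filter, Finset.mem_univ, true_and] at hx
            exact TL_ge hx (hY _ _)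
        _ ≤ ∑ x : Fin m × ZMod M, TL (Y x.1 x.2) :=
            Finset.sum_le_sum_of_subset_of_nonneg (Finset.subset_univ _)
              fun _ _ _ => TL_nonneg _
    rw [e4] at e5
    exact le_of_mul_le_mul_right e5 hd
  have hcard' : P.card ≤ 2 * N := by exact_mod_cast hcard
  -- step 4
  let g : Fin N × Bool → Fin m × ZMod M := fun x => (jj x.1, if x.2 then ss x.1 else - ss x.1)
  have hg : Function.Injective g := by
    rintro ⟨i, u⟩ ⟨k, v⟩ h
    have h2 : (if u then ss i else - ss i) = (if v then ss k else - ss k) := congrArg Prod.snd h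
    cases u <;> cases v <;> simp only [if_true, if_false, Bool.false_eq_true] at h2
    · have : i = k := by
        apply hbinj
        rw [← hss, ← hss, neg_injective h2]
      rw [this]
    · exfalso
      apply hbneg i k
      rw [← hss, ← hss, ← h2]; ring
    · exfalso
      apply hbneg i k
      rw [← hss, ← hss, h2]; ring
    · have : i = k := by
        apply hbinj
        rw [← hss, ← hss, h2]
      rw [this]
  have hgP : Finset.univ.image g = P := by
    apply Finset.eq_of_subset_of_card_le
    · intro x hx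
      simp only [Finset.mem_image, Finset.mem_univ, true_and] at hx
      obtain ⟨⟨i, u⟩, rfl⟩ := hx
      simp only [hP, Finset.mem_filter, Finset.mem_univ, true_and, g]
      cases u
      · simpa using hYne' i
      · simpa using hYne i
    · rw [Finset.card_image_of_injective _ hg]
      simp only [Finset.card_univ, Fintype.card_prod, Fintype.card_fin, Fintype.card_bool]
      omega
  have hsupp : ∀ j s, Y j s ≠ 0 → ∃ k, j = jj k ∧ (s = ss k ∨ s = - ss k) := by
    intro j s h
    have : (j, s) ∈ P := by simp [hP, h]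
    rw [← hgP] at this
    simp only [Finset.mem_image, Finset.mem_univ, true_and] at this
    obtain ⟨⟨k, u⟩, hk⟩ := this
    have hk1 : jj k = j := congrArg Prod.fst hk
    have hk2 : (if u then ss k else - ss k) = s := congrArg Prod.snd hk
    refine ⟨k, hk1.symm, ?_⟩
    cases u
    · right; simpa using hk2.symm
    · left; simpa using hk2.symm
  -- step 5
  obtain ⟨i, i', hii, hj⟩ : ∃ i i', i ≠ i' ∧ jj i = jj i' :=
    Fintype.exists_ne_map_eq_of_card_lt jj (by simpa using hmN)
  have ht : (ss i + ss i') + (ss i + ss i') = b i + b i' := by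
    rw [← hss i, ← hss i']; ring
  have hA : A (ss i + ss i') = 0 := by
    apply hAt
    · intro h0
      rw [h0] at ht
      apply G2 i i' i i hii
      rw [← ht]; ring
    · intro k hk
      rw [hk] at ht
      rcases G1 i i' k k hii ht with h | h
      · exact hii (h.1.symm.trans h.2)
      · exact hii (h.2.symm.trans h.1)
    · intro k hk
      rw [hk] at ht
      apply G3 i i' k k hii
      rw [← ht]; ring
  rw [← hconv, ← Fintype.sum_prod_type'] at hA
  have hssne : ss i ≠ ss i' := by
    intro h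
    apply hii
    apply hbinj
    rw [← hss, ← hss, h]
  have hsub : ∑ x : Fin m × ZMod M, Y x.1 x.2 * Y x.1 (ss i + ss i' - x.2)
      = ∑ x ∈ ({(jj i, ss i), (jj i, ss i')} : Finset (Fin m × ZMod M)),
          Y x.1 x.2 * Y x.1 (ss i + ss i' - x.2) := by
    symm
    apply Finset.sum_subset (Finset.subset_univ _)
    rintro ⟨j, s⟩ _ hx
    by_contra hne
    have hY1 : Y j s ≠ 0 := left_ne_zero_of_mul hne
    have hY2 : Y j (ss i + ss i' - s) ≠ 0 := right_ne_zero_of_mul hne
    obtain ⟨k, hk, hks⟩ := hsupp _ _ hY1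
    obtain ⟨l, hl, hls⟩ := hsupp _ _ hY2
    have hsum : s + (ss i + ss i' - s) = ss i + ss i' := by ring
    have hsum2 : (s + s) + ((ss i + ss i' - s) + (ss i + ss i' - s)) = b i + b i' := by
      rw [← ht]; ring
    apply hx
    simp only [Finset.mem_insert, Finset.mem_singleton, Prod.mk.injEq]
    rcases hks with hks | hks <;> rcases hls with hls | hls
    · rw [hls, hks, hss, hss] at hsum2
      rcases G1 i i' k l hii hsum2 with h | h
      · left
        rw [hk, hks, h.1]; exact ⟨rfl, rfl⟩
      · right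
        rw [hk, hks, h.1]; exact ⟨hj.symm, rfl⟩
    · exfalso
      apply G2 i i' k l hii
      rw [← hsum2, hls, hks, ← hss k, ← hss l]; ring
    · exfalso
      apply G2 i i' l k hii
      rw [← hsum2, hls, hks, ← hss k, ← hss l]; ring
    · exfalso
      apply G3 i i' k l hii
      rw [← hsum2, hls, hks, ← hss k, ← hss l]; ring
  rw [hsub, Finset.sum_pair (by simp [hssne])] at hA
  have e6 : ss i + ss i' - ss i = ss i' := by ring
  have e7 : ss i + ss i' - ss i' = ss i := by ring
  simp only [e6, e7] at hA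
  have e8 : Y (jj i) (ss i') ≠ 0 := by rw [hj]; exact hYne i'
  have e9 : Y (jj i) (ss i) * Y (jj i) (ss i') ≠ 0 := mul_ne_zero (hYne i) e8
  apply e9
  have e10 : (2 : L) * (Y (jj i) (ss i) * Y (jj i) (ss i')) = 0 := by
    rw [← hA]; ring
  rcases mul_eq_zero.mp e10 with h | h
  · exfalso
    have : (2 : L) ≠ 0 := two_ne_zero
    exact this h
  · exact h

end Pool.Agent.H421Pyth
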