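import Mathlib
import Pool.Agent.H421Pyth.Key

set_option autoImplicit false

namespace Pool.Agent.H421Pyth

open Finset

/-- Genericity of a family of residues. -/
structure Generic {M N : ℕ} (b : Fin N → ZMod M) : Prop where
  G1 : ∀ i i' k l, i ≠ i' → b k + b l = b i + b i' → (k = i ∧ l = i') ∨ (k = i' ∧ l = i)
  G2 : ∀ i i' k l, i ≠ i' → b k - b l ≠ b i + b i'
  G3 : ∀ i i' k l, i ≠ i' → - b k - b l ≠ b i + b i'

theorem Generic.inj {M N : ℕ} {b : Fin N → ZMod M} (h : Generic b) {i k : Fin N}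
    (hik : b i = b k) : i = k := by
  by_contra hne
  have := h.G1 i k i i hne (by rw [hik])
  rcases this with h | h
  · exact hne h.2
  · exact hne h.1

theorem exists_other {N : ℕ} (hN : 2 ≤ N) (i : Fin N) : ∃ i' : Fin N, i' ≠ i := by
  by_cases h0 : i = ⟨0, by omega⟩
  · exact ⟨⟨1, by omega⟩, by rw [h0]; simp⟩
  · exact ⟨⟨0, by omega⟩, fun h => h0 h.symm⟩

theorem Generic.ne_neg {M N : ℕ} {b : Fin N → ZMod M} (h : Generic b) (hN : 2 ≤ N)
    (i k : Fin N) : b i ≠ - b k := by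
  intro hh
  by_cases hik : i = k
  · subst hik
    obtain ⟨i', hi'⟩ := exists_other hN i
    apply h.G2 i' i i' i hi'
    nth_rewrite 2 [hh]
    ring
  · apply h.G2 i k i i hik
    rw [hh]; ring

theorem Generic.ne_zero {M N : ℕ} {b : Fin N → ZMod M} (h : Generic b) (hN : 2 ≤ N)
    (i : Fin N) : b i ≠ 0 := by
  intro hh
  obtain ⟨i', hi'⟩ := exists_other hN i
  apply h.G2 i' i i' i hi'
  rw [hh]; ring

/-- The components of `∑ (z i + (z i)⁻¹) ^ 2`. -/
noncomputable def Acomp {L : Type*} [Field L] {M N : ℕ} (b : Fin N → ZMod M) (x x' : Fin N → L)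
    (t : ZMod M) : L :=
  (if t = 0 then (2 * N : L) else 0)
    + ∑ i, ((if t = b i then x i else 0) + (if t = - b i then x' i else 0))

theorem Acomp_zero {L : Type*} [Field L] {M N : ℕ} {b : Fin N → ZMod M} (h : Generic b)
    (hN : 2 ≤ N) (x x' : Fin N → L) : Acomp b x x' 0 = 2 * N := by
  unfold Acomp
  rw [if_pos rfl]
  rw [Finset.sum_eq_zero]
  · ring
  · intro i _
    rw [if_neg (fun hh => h.ne_zero hN i hh.symm), if_neg]
    · ring
    · intro hh
      exact h.ne_zero hN i (by rw [← neg_neg (b i), ← hh, neg_zero])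

theorem Acomp_b {L : Type*} [Field L] {M N : ℕ} {b : Fin N → ZMod M} (h : Generic b)
    (hN : 2 ≤ N) (x x' : Fin N → L) (i : Fin N) : Acomp b x x' (b i) = x i := by
  unfold Acomp
  rw [if_neg (h.ne_zero hN i), Finset.sum_eq_single i]
  · rw [if_pos rfl, if_neg (h.ne_neg hN i i)]; ring
  · intro k _ hk
    rw [if_neg (fun hh => hk (h.inj hh).symm), if_neg (h.ne_neg hN i k)]; ring
  · simp

theorem Acomp_other {L : Type*} [Field L] {M N : ℕ} {b : Fin N → ZMod M}
    (x x' : Fin N → L) (t : ZMod M) (h0 : t ≠ 0) (h1 : ∀ i, t ≠ b i) (h2 : ∀ i, t ≠ - b i) :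
    Acomp b x x' t = 0 := by
  unfold Acomp
  rw [if_neg h0, Finset.sum_eq_zero]
  · ring
  · intro i _
    rw [if_neg (h1 i), if_neg (h2 i)]; ring

theorem sum_Acomp {L : Type*} [Field L] {M N : ℕ} [NeZero M] (b : Fin N → ZMod M)
    (x x' : Fin N → L) (g : ZMod M → L) :
    ∑ t, Acomp b x x' t * g t = 2 * N * g 0 + ∑ i, (x i * g (b i) + x' i * g (- b i)) := by
  unfold Acomp
  simp only [add_mul, Finset.sum_add_distrib, Finset.sum_mul]
  congr 1
  · simp
  · rw [Finset.sum_comm, Finset.sum_comm (s := Finset.univ) (t := Finset.univ)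
      (f := fun t i => (if t = - b i then x' i else 0) * g t)]
    congr 1
    · refine Finset.sum_congr rfl fun i _ => ?_
      simp
    · refine Finset.sum_congr rfl fun i _ => ?_
      simp

/-- The key lemma in the form used below. -/
theorem key2 {L : Type*} [Field L] [NumberField L] (c : L ≃ₐ[ℚ] L)
    (hc : ∀ (φ : L →ₐ[ℚ] ℂ) (x : L), φ (c x) = starRingEnd ℂ (φ x))
    {M : ℕ} [NeZero M] {N m : ℕ} (hN : 2 ≤ N)
    (Y : Fin m → ZMod M → L) (hY : ∀ j s, IsIntegral ℤ (Y j s))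
    (hYc : ∀ j s, c (Y j s) = Y j (-s))
    {b : Fin N → ZMod M} (hb : Generic b) (x x' : Fin N → L)
    (hx : ∀ i, ∀ w : L, IsIntegral ℤ w → x i ≠ 2 * w)
    (hconv : ∀ t, ∑ j, ∑ s, Y j s * Y j (t - s) = Acomp b x x' t) : N ≤ m := by
  refine key c hc M N m hN Y hY hYc b hb.G1 hb.G2 hb.G3 (Acomp b x x') hconv
    (Acomp_zero hb hN x x') ?_ (fun t h0 h1 h2 => Acomp_other x x' t h0 h1 h2)
  intro i w hw
  rw [Acomp_b hb hN]
  exact hx i w hw

/-- A root of unity is not twice an algebraic integer. -/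
theorem root_ne_two_mul {L : Type*} [Field L] [CharZero L] {n : ℕ} (hn : 0 < n) {x w : L}
    (hx : x ^ n = 1) (hw : IsIntegral ℤ w) : x ≠ 2 * w := by
  intro h
  have h1 : (2 * w) ^ n = 1 := by rw [← h, hx]
  have h2 : ((1 / 2 : ℚ) : L) ^ n = w ^ n := by
    rw [mul_pow] at h1
    have h7 : w ^ n = ((2 : L) ^ n)⁻¹ := eq_inv_of_mul_eq_one_right h1
    rw [h7]
    push_cast
    rw [one_div, inv_pow]
  have h3 : IsIntegral ℤ (((1 / 2 : ℚ) : L) ^ n) := by rw [h2]; exact hw.pow n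
  have h4 : IsIntegral ℤ ((1 / 2 : ℚ) : L) := IsIntegral.of_pow hn h3
  have h5 : IsIntegral ℤ (1 / 2 : ℚ) := by
    have : ((1 / 2 : ℚ) : L) = algebraMap ℚ L (1 / 2) := (eq_ratCast _ _).symm
    rw [this] at h4
    exact (isIntegral_algebraMap_iff (algebraMap ℚ L).injective).mp h4
  obtain ⟨z, hz⟩ := IsIntegrallyClosed.isIntegral_iff.mp h5
  have h6 : (2 * z : ℚ) = 1 := by
    have : (z : ℚ) = 1 / 2 := by simpa using hz
    rw [this]; norm_num
  have h7 : (2 * z : ℤ) = 1 := by exact_mod_cast h6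
  omega

end Pool.Agent.H421Pyth
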