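import Mathlib
import Pool.Agent.H421Pyth.Gen

set_option autoImplicit false

namespace Pool.Agent.H421Pyth

open Finset

theorem pow4_lt {a b : ℕ} (h : a < b) : 4 * 4 ^ a ≤ 4 ^ b := by
  calc 4 * 4 ^ a = 4 ^ (a + 1) := by ring
    _ ≤ 4 ^ b := Nat.pow_le_pow_right (by norm_num) h

theorem pow4_pos (a : ℕ) : 0 < 4 ^ a := by positivity

theorem pow4_sum {i i' k l : ℕ} (hne : i ≠ i') (h : 4 ^ k + 4 ^ l = 4 ^ i + 4 ^ i') :
    (k = i ∧ l = i') ∨ (k = i' ∧ l = i) := by
  have hp := pow4_pos i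
  have hp' := pow4_pos i'
  have hk := pow4_pos k
  have hl := pow4_pos l
  have key : ∀ {x y : ℕ}, x < y ∨ x = y ∨ y < x := fun {x y} => lt_trichotomy x y
  rcases key (x := k) (y := i) with h1 | h1 | h1 <;>
  rcases key (x := k) (y := i') with h2 | h2 | h2 <;>
  rcases key (x := l) (y := i) with h3 | h3 | h3 <;>
  rcases key (x := l) (y := i') with h4 | h4 | h4 <;>
  first
    | (exfalso; omega)
    | (left; constructor <;> omega)
    | (right; constructor <;> omega)
    | (exfalso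
       try have g1 := pow4_lt h1
       try have g2 := pow4_lt h2
       try have g3 := pow4_lt h3
       try have g4 := pow4_lt h4
       try subst h1
       try subst h2
       try subst h3
       try subst h4
       omega)

theorem pow4_ne {i i' k l : ℕ} : 4 ^ k ≠ 4 ^ l + 4 ^ i + 4 ^ i' := by
  intro h
  have hp := pow4_pos i
  have hp' := pow4_pos i'
  have hk := pow4_pos k
  have hl := pow4_pos l
  have h1 : i < k := by
    by_contra hc
    have := Nat.pow_le_pow_right (n := 4) (by norm_num) (not_lt.mp hc)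
    omega
  have h2 : i' < k := by
    by_contra hc
    have := Nat.pow_le_pow_right (n := 4) (by norm_num) (not_lt.mp hc)
    omega
  have h3 : l < k := by
    by_contra hc
    have := Nat.pow_le_pow_right (n := 4) (by norm_num) (not_lt.mp hc)
    omega
  have g1 := pow4_lt h1
  have g2 := pow4_lt h2
  have g3 := pow4_lt h3
  omega

theorem generic_pow4 {M N : ℕ} (d : ℕ)
    (h : ∀ X : ℤ, |X| ≤ 4 ^ N → (M : ℤ) ∣ 2 * d * X → X = 0) :
    Generic (fun i : Fin N => ((2 * (d * 4 ^ (i : ℕ)) : ℕ) : ZMod M)) := by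
  have hsmall : ∀ i : Fin N, (4 : ℤ) * 4 ^ (i : ℕ) ≤ 4 ^ N := by
    intro i
    exact_mod_cast pow4_lt i.isLt
  have hpos : ∀ i : ℕ, (0 : ℤ) < 4 ^ i := fun i => by positivity
  have hmod : ∀ X : ℤ, ((2 * d * X : ℤ) : ZMod M) = 0 → |X| ≤ 4 ^ N → X = 0 := by
    intro X hX hX2
    exact h X hX2 ((ZMod.intCast_zmod_eq_zero_iff_dvd _ _).mp hX)
  refine ⟨?_, ?_, ?_⟩
  · intro i i' k l hne heq
    have h1 : (4 : ℤ) ^ (k : ℕ) + 4 ^ (l : ℕ) - 4 ^ (i : ℕ) - 4 ^ (i' : ℕ) = 0 := by
      apply hmod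
      · have h2 := sub_eq_zero.mpr heq
        rw [← h2]
        push_cast
        ring
      · have := hsmall i; have := hsmall i'; have := hsmall k; have := hsmall l
        have := hpos i; have := hpos i'; have := hpos k; have := hpos l
        rw [abs_le]; constructor <;> linarith
    have h3 : 4 ^ (k : ℕ) + 4 ^ (l : ℕ) = 4 ^ (i : ℕ) + 4 ^ (i' : ℕ) := by
      have : (4 : ℤ) ^ (k : ℕ) + 4 ^ (l : ℕ) = 4 ^ (i : ℕ) + 4 ^ (i' : ℕ) := by linarith
      exact_mod_cast this
    rcases pow4_sum (fun hh => hne (Fin.ext hh)) h3 with h4 | h4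
    · left; exact ⟨Fin.ext h4.1, Fin.ext h4.2⟩
    · right; exact ⟨Fin.ext h4.1, Fin.ext h4.2⟩
  · intro i i' k l hne heq
    have h1 : (4 : ℤ) ^ (k : ℕ) - 4 ^ (l : ℕ) - 4 ^ (i : ℕ) - 4 ^ (i' : ℕ) = 0 := by
      apply hmod
      · have h2 := sub_eq_zero.mpr heq
        rw [← h2]
        push_cast
        ring
      · have := hsmall i; have := hsmall i'; have := hsmall k; have := hsmall l
        have := hpos i; have := hpos i'; have := hpos k; have := hpos l
        rw [abs_le]; constructor <;> linarith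
    have h3 : 4 ^ (k : ℕ) = 4 ^ (l : ℕ) + 4 ^ (i : ℕ) + 4 ^ (i' : ℕ) := by
      have : (4 : ℤ) ^ (k : ℕ) = 4 ^ (l : ℕ) + 4 ^ (i : ℕ) + 4 ^ (i' : ℕ) := by linarith
      exact_mod_cast this
    exact pow4_ne h3
  · intro i i' k l hne heq
    have h1 : - (4 : ℤ) ^ (k : ℕ) - 4 ^ (l : ℕ) - 4 ^ (i : ℕ) - 4 ^ (i' : ℕ) = 0 := by
      apply hmod
      · have h2 := sub_eq_zero.mpr heq
        rw [← h2]
        push_cast
        ring
      · have := hsmall i; have := hsmall i'; have := hsmall k; have := hsmall l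
        have := hpos i; have := hpos i'; have := hpos k; have := hpos l
        rw [abs_le]; constructor <;> linarith
    have := hpos i; have := hpos i'; have := hpos k; have := hpos l
    linarith

/-- The product of the primes dividing `n`. -/
def R (n : ℕ) : ℕ := ∏ p ∈ n.primeFactors, p

theorem R_dvd (n : ℕ) : R n ∣ n := Nat.prod_primeFactors_dvd n

theorem R_pos (n : ℕ) : 0 < R n := Finset.prod_pos fun _ hp => (Nat.prime_of_mem_primeFactors hp).pos

theorem dvd_R {n p : ℕ} (hn : n ≠ 0) (hp : p.Prime) (h : p ∣ n) : p ∣ R n :=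
  Finset.dvd_prod_of_mem _ (Nat.mem_primeFactors.mpr ⟨hp, h, hn⟩)

theorem R_mul_div (n : ℕ) : (n / R n) * R n = n := Nat.div_mul_cancel (R_dvd n)

theorem R_factor {n₀ n : ℕ} (hn : n ≠ 0) (h : n₀ ∣ n) : ∃ r, R n = R n₀ * r ∧ n₀.Coprime r := by
  have hsub : n₀.primeFactors ⊆ n.primeFactors := Nat.primeFactors_mono h hn
  refine ⟨∏ p ∈ n.primeFactors \ n₀.primeFactors, p, ?_, ?_⟩
  · unfold R
    rw [← Finset.prod_sdiff hsub, mul_comm]
  · rw [Nat.coprime_prod_right_iff]
    intro p hp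
    rw [Finset.mem_sdiff] at hp
    have hpp := Nat.prime_of_mem_primeFactors hp.1
    rw [Nat.coprime_comm, hpp.coprime_iff_not_dvd]
    intro hd
    exact hp.2 (Nat.mem_primeFactors.mpr ⟨hpp, hd, fun h0 => hn (by
      rw [h0] at h; exact Nat.eq_zero_of_zero_dvd h)⟩)

theorem M_dvd_aux {n₀ n X : ℕ} (hn : n ≠ 0) (h : n₀ ∣ n)
    (hX : n / R n ∣ (n / n₀) * X) : n₀ / R n₀ ∣ X := by
  have hn0 : n₀ ≠ 0 := fun h0 => hn (by rw [h0] at h; exact Nat.eq_zero_of_zero_dvd h)
  have h1 : n ∣ (n / n₀) * X * R n := by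
    have := Nat.mul_dvd_mul_right hX (R n)
    rwa [R_mul_div] at this
  have h2 : n₀ ∣ X * R n := by
    have h3 : (n / n₀) * n₀ ∣ (n / n₀) * (X * R n) := by
      rw [Nat.div_mul_cancel h, ← mul_assoc]; exact h1
    have h4 : 0 < n / n₀ := Nat.div_pos (Nat.le_of_dvd (Nat.pos_of_ne_zero hn) h)
      (Nat.pos_of_ne_zero hn0)
    exact Nat.dvd_of_mul_dvd_mul_left h4 h3
  obtain ⟨r, hr, hcop⟩ := R_factor hn h
  rw [hr, ← mul_assoc] at h2
  have h5 : n₀ ∣ X * R n₀ := hcop.dvd_of_dvd_mul_right h2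
  have h6 : (n₀ / R n₀) * R n₀ ∣ X * R n₀ := by rw [R_mul_div]; exact h5
  exact Nat.dvd_of_mul_dvd_mul_right (R_pos n₀) h6

theorem not_dvd_div {n p B : ℕ} (hn : n ≠ 0) (hp : p.Prime) (h : p ∣ n) (hB : n / R n ≤ B)
    (hpB : B < p) : ¬ p ∣ n / p := by
  intro hd
  have hn' : n / p ≠ 0 := (Nat.div_pos (Nat.le_of_dvd (Nat.pos_of_ne_zero hn) h) hp.pos).ne'
  have h1 : n = p * (n / p) := (Nat.mul_div_cancel' h).symm
  have h2 : R n = R (n / p) := by
    unfold R
    conv_lhs => rw [h1]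
    rw [Nat.primeFactors_mul hp.ne_zero hn', hp.primeFactors]
    congr 1
    rw [Finset.union_eq_right, Finset.singleton_subset_iff, Nat.mem_primeFactors]
    exact ⟨hp, hd, hn'⟩
  have h3 : R n ∣ n / p := by rw [h2]; exact R_dvd _
  have h4 : p ∣ n / R n := by
    obtain ⟨t, ht⟩ := h3
    refine ⟨t, ?_⟩
    have : n = (p * t) * R n := by
      conv_lhs => rw [h1, ht]
      ring
    exact Nat.div_eq_of_eq_mul_left (R_pos n) this
  have h5 : 0 < n / R n := Nat.div_pos (Nat.le_of_dvd (Nat.pos_of_ne_zero hn) (R_dvd n)) (R_pos n)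
  have := Nat.le_of_dvd h5 h4
  omega

theorem exists_large_prime {S : Set ℕ} (hS : S.Infinite) (_hpos : ∀ n ∈ S, 0 < n) (B C : ℕ)
    (hB : ∀ n ∈ S, n / R n ≤ B) : ∃ n ∈ S, ∃ p, p.Prime ∧ C < p ∧ p ∣ n := by
  by_contra hcon
  push Not at hcon
  apply hS
  apply (Set.finite_Iic (B * ∏ p ∈ Finset.range (C + 1), (if p = 0 then 1 else p))).subset
  intro n hn
  rw [Set.mem_Iic]
  have h1 : R n ≤ ∏ p ∈ Finset.range (C + 1), (if p = 0 then 1 else p) := by
    have hsub : n.primeFactors ⊆ Finset.range (C + 1) := by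
      intro p hp
      rw [Finset.mem_range]
      by_contra hc
      exact hcon n hn p (Nat.prime_of_mem_primeFactors hp) (by omega)
        (Nat.dvd_of_mem_primeFactors hp)
    have h2 : R n = ∏ p ∈ n.primeFactors, (if p = 0 then 1 else p) := by
      unfold R
      refine Finset.prod_congr rfl fun p hp => ?_
      rw [if_neg (Nat.prime_of_mem_primeFactors hp).ne_zero]
    rw [h2]
    apply Finset.prod_le_prod_of_subset_of_one_le' hsub
    intro p _ _
    split_ifs
    · exact le_rfl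
    · omega
  calc n = (n / R n) * R n := (R_mul_div n).symm
    _ ≤ B * ∏ p ∈ Finset.range (C + 1), (if p = 0 then 1 else p) := Nat.mul_le_mul (hB n hn) h1

end Pool.Agent.H421Pyth
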