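import Mathlib

set_option autoImplicit false

namespace Pool.Agent.H421Pyth

open Finset Polynomial

variable {L : Type*} [Field L] [NumberField L] (n : ℕ) [NeZero n]
  [IsCyclotomicExtension {n} ℚ L]

/-- For `v` coprime to `n` there is an automorphism raising all `n`-th roots of unity to the `v`. -/
theorem exists_aut (v : ℕ) (hv : v.Coprime n) :
    ∃ σ : L ≃ₐ[ℚ] L, ∀ x : L, x ^ n = 1 → σ x = x ^ v := by
  refine ⟨(IsCyclotomicExtension.Rat.galEquivZMod n L).symm (ZMod.unitOfCoprime v hv), ?_⟩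
  intro x hx
  rw [IsCyclotomicExtension.Rat.galEquivZMod_apply_of_pow_eq n L _ hx]
  rw [MulEquiv.apply_symm_apply, ZMod.coe_unitOfCoprime, ZMod.val_natCast]
  conv_rhs => rw [← Nat.div_add_mod v n, pow_add, pow_mul, hx, one_pow, one_mul]

include n in
theorem aut_comm (σ τ : L ≃ₐ[ℚ] L) (x : L) : σ (τ x) = τ (σ x) := by
  have h : σ * τ = τ * σ := by
    apply (IsCyclotomicExtension.Rat.galEquivZMod n L).injective
    rw [map_mul, map_mul, mul_comm]
  exact congrArg (fun g : L ≃ₐ[ℚ] L => g x) h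

variable {n}

theorem integral_eq_sum {ζ : L} (hζ : IsPrimitiveRoot ζ n) {y : L} (hy : IsIntegral ℤ y) :
    ∃ f : ℤ[X], y = ∑ k ∈ f.support, (f.coeff k : L) * ζ ^ k := by
  have := IsCyclotomicExtension.Rat.isIntegralClosure_adjoin_singleton hζ
  obtain ⟨⟨z, hz⟩, rfl⟩ := (this.isIntegral_iff).mp hy
  rw [Algebra.adjoin_singleton_eq_range_aeval] at hz
  obtain ⟨f, rfl⟩ := hz
  refine ⟨f, ?_⟩
  change (aeval ζ f : L) = _
  rw [aeval_def, eval₂_eq_sum, Polynomial.sum_def]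
  simp

theorem algHom_ext' {ζ : L} (hζ : IsPrimitiveRoot ζ n) {φ ψ : L →ₐ[ℚ] ℂ} (h : φ ζ = ψ ζ) :
    φ = ψ := by
  apply (hζ.powerBasis ℚ).algHom_ext
  simpa using h

/-- Complex conjugation on a cyclotomic field. -/
theorem exists_conj {ζ : L} (hζ : IsPrimitiveRoot ζ n) :
    ∃ c : L ≃ₐ[ℚ] L, (∀ x : L, x ^ n = 1 → c x = x⁻¹) ∧
      (∀ (φ : L →ₐ[ℚ] ℂ) (x : L), φ (c x) = starRingEnd ℂ (φ x)) ∧
      ∀ (φ : L →+* ℂ) (x : L), φ (c x) = starRingEnd ℂ (φ x) := by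
  have hn : 0 < n := NeZero.pos n
  have hcop : (n - 1).Coprime n := by
    have : (n - 1).Coprime (n - 1 + 1) := by simp
    rwa [Nat.sub_add_cancel hn] at this
  obtain ⟨c, hc⟩ := exists_aut (L := L) n (n - 1) hcop
  have hc' : ∀ x : L, x ^ n = 1 → c x = x⁻¹ := by
    intro x hx
    rw [hc x hx]
    have hx0 : x ≠ 0 := by
      rintro rfl
      rw [zero_pow hn.ne'] at hx
      exact zero_ne_one hx
    exact eq_inv_of_mul_eq_one_left (by rw [← pow_succ, Nat.sub_add_cancel hn, hx])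
  suffices h : ∀ (φ : L →ₐ[ℚ] ℂ) (x : L), φ (c x) = starRingEnd ℂ (φ x) from
    ⟨c, hc', h, fun φ x => h φ.toRatAlgHom x⟩
  intro φ x
  let ψ : L →ₐ[ℚ] ℂ := (Complex.conjAe.toAlgHom.restrictScalars ℚ).comp φ
  have : φ.comp c.toAlgHom = ψ := by
    apply algHom_ext' hζ
    have h1 : (φ ζ) ^ n = 1 := by rw [← map_pow, hζ.pow_eq_one, map_one]
    have h2 : ‖φ ζ‖ = 1 := Complex.norm_eq_one_of_pow_eq_one h1 hn.ne'
    have h3 : φ (c ζ) = starRingEnd ℂ (φ ζ) := by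
      rw [hc' ζ hζ.pow_eq_one, map_inv₀, Complex.inv_eq_conj h2]
    exact h3
  exact congrArg (fun g : L →ₐ[ℚ] ℂ => g x) this

end Pool.Agent.H421Pyth
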