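import Mathlib

set_option autoImplicit false

namespace Pool.Agent.H421Pyth

open Finset

/-- Fourier inversion on `ZMod M`: a function with vanishing transform vanishes. -/
theorem fourier_inj {F : Type*} [Field F] [CharZero F] {M : ℕ} [NeZero M]
    {ψ : AddChar (ZMod M) F} (hψ : ψ.IsPrimitive) (Z : ZMod M → F)
    (h : ∀ u, ∑ s, ψ (u * s) * Z s = 0) (t : ZMod M) : Z t = 0 := by
  classical
  have h1 : ∑ u, ψ (-(u * t)) * ∑ s, ψ (u * s) * Z s = (M : F) * Z t := by
    calc ∑ u, ψ (-(u * t)) * ∑ s, ψ (u * s) * Z s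
        = ∑ u, ∑ s, ψ (u * (s - t)) * Z s := by
          refine Finset.sum_congr rfl fun u _ => ?_
          rw [Finset.mul_sum]
          refine Finset.sum_congr rfl fun s _ => ?_
          rw [← mul_assoc, ← AddChar.map_add_eq_mul]
          congr 2
          ring
      _ = ∑ s, (∑ u, ψ (u * (s - t))) * Z s := by
          rw [Finset.sum_comm]
          exact Finset.sum_congr rfl fun s _ => (Finset.sum_mul _ _ _).symm
      _ = ∑ s, (if s - t = 0 then (Fintype.card (ZMod M) : F) else 0) * Z s := by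
          refine Finset.sum_congr rfl fun s _ => ?_
          rw [AddChar.sum_mulShift _ hψ]
          split_ifs <;> simp
      _ = (M : F) * Z t := by
          rw [Finset.sum_eq_single t]
          · simp
          · intro s _ hs
            rw [if_neg (sub_ne_zero.mpr hs), zero_mul]
          · simp
  have h2 : (M : F) * Z t = 0 := by
    rw [← h1]
    exact Finset.sum_eq_zero fun u _ => by rw [h u, mul_zero]
  have h3 : (M : F) ≠ 0 := by
    exact_mod_cast NeZero.ne M
  exact (mul_eq_zero.mp h2).resolve_left h3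

/-- If only the zero frequency survives, the function is constant. -/
theorem fourier_const {F : Type*} [Field F] [CharZero F] {M : ℕ} [NeZero M]
    {ψ : AddChar (ZMod M) F} (hψ : ψ.IsPrimitive) (Z : ZMod M → F)
    (h : ∀ u, u ≠ 0 → ∑ s, ψ (u * s) * Z s = 0) (t t' : ZMod M) : Z t = Z t' := by
  classical
  have h3 : (M : F) ≠ 0 := by
    exact_mod_cast NeZero.ne M
  set C : F := (∑ s, Z s) / M with hC
  have key : ∀ t, Z t - C = 0 := by
    apply fourier_inj hψ (fun s => Z s - C)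
    intro u
    by_cases hu : u = 0
    · subst hu
      simp only [zero_mul, AddChar.map_zero_eq_one, one_mul, Finset.sum_sub_distrib,
        Finset.sum_const, Finset.card_univ, ZMod.card, nsmul_eq_mul]
      rw [hC]; field_simp; ring
    · simp only [mul_sub, Finset.sum_sub_distrib]
      rw [h u hu, ← Finset.sum_mul]
      have : ∑ s, ψ (u * s) = 0 := by
        have h5 := AddChar.sum_mulShift u hψ
        rw [if_neg hu] at h5
        rw [← Nat.cast_zero, ← h5]
        exact Finset.sum_congr rfl fun s _ => by rw [mul_comm]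
      rw [this]; ring
  have h4 := key t
  have h5 := key t'
  rw [sub_eq_zero] at h4 h5
  rw [h4, h5]

theorem parseval {M : ℕ} [NeZero M] {ψ : AddChar (ZMod M) ℂ} (hψ : ψ.IsPrimitive)
    (Z : ZMod M → ℂ) :
    ∑ u, ‖∑ s, ψ (u * s) * Z s‖ ^ 2 = M * ∑ s, ‖Z s‖ ^ 2 := by
  classical
  have h0 : (∑ u, ((‖∑ s, ψ (u * s) * Z s‖ ^ 2 : ℝ) : ℂ)) = M * ∑ s, ((‖Z s‖ ^ 2 : ℝ) : ℂ) := by
    calc (∑ u, ((‖∑ s, ψ (u * s) * Z s‖ ^ 2 : ℝ) : ℂ))
        = ∑ u, ∑ s, ∑ s', ψ (u * (s - s')) * (Z s * (starRingEnd ℂ) (Z s')) := by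
          refine Finset.sum_congr rfl fun u _ => ?_
          rw [← Complex.normSq_eq_norm_sq, ← Complex.mul_conj, map_sum, Finset.sum_mul_sum]
          refine Finset.sum_congr rfl fun s _ => Finset.sum_congr rfl fun s' _ => ?_
          rw [map_mul (starRingEnd ℂ), ← AddChar.map_neg_eq_conj]
          have : ψ (u * (s - s')) = ψ (u * s) * ψ (-(u * s')) := by
            rw [← AddChar.map_add_eq_mul]; congr 1; ring
          rw [this]; ring
      _ = ∑ s, ∑ s', (∑ u, ψ (u * (s - s'))) * (Z s * (starRingEnd ℂ) (Z s')) := by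
          rw [Finset.sum_comm]
          refine Finset.sum_congr rfl fun s _ => ?_
          rw [Finset.sum_comm]
          exact Finset.sum_congr rfl fun s' _ => (Finset.sum_mul _ _ _).symm
      _ = ∑ s, (M : ℂ) * (Z s * (starRingEnd ℂ) (Z s)) := by
          refine Finset.sum_congr rfl fun s _ => ?_
          rw [Finset.sum_eq_single s]
          · rw [AddChar.sum_mulShift _ hψ]; simp
          · intro s' _ hs
            rw [AddChar.sum_mulShift _ hψ, if_neg (sub_ne_zero.mpr hs.symm)]; simp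
          · simp
      _ = M * ∑ s, ((‖Z s‖ ^ 2 : ℝ) : ℂ) := by
          rw [← Finset.mul_sum]
          congr 1
          refine Finset.sum_congr rfl fun s _ => ?_
          rw [Complex.mul_conj, Complex.normSq_eq_norm_sq]
  have h1 : (((∑ u, ‖∑ s, ψ (u * s) * Z s‖ ^ 2 : ℝ)) : ℂ) = ((M * ∑ s, ‖Z s‖ ^ 2 : ℝ) : ℂ) := by
    push_cast
    push_cast at h0
    exact h0
  exact_mod_cast h1

theorem sum_pairs {ι : Type*} [Fintype ι] (Z : ι → ℂ) :
    ∑ s, ∑ s', ‖Z s - Z s'‖ ^ 2 = 2 * (Fintype.card ι) * ∑ s, ‖Z s‖ ^ 2 - 2 * ‖∑ s, Z s‖ ^ 2 := by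
  have h1 : ∀ a b : ℂ, ‖a - b‖ ^ 2 = ‖a‖ ^ 2 + ‖b‖ ^ 2 - 2 * (a * (starRingEnd ℂ) b).re := by
    intro a b
    rw [← Complex.normSq_eq_norm_sq, Complex.normSq_sub, Complex.normSq_eq_norm_sq,
      Complex.normSq_eq_norm_sq]
  have h2 : ‖∑ s, Z s‖ ^ 2 = ∑ s, ∑ s', (Z s * (starRingEnd ℂ) (Z s')).re := by
    have : ((‖∑ s, Z s‖ ^ 2 : ℝ) : ℂ) = ∑ s, ∑ s', Z s * (starRingEnd ℂ) (Z s') := by
      rw [← Complex.normSq_eq_norm_sq, ← Complex.mul_conj, map_sum, Finset.sum_mul_sum]
    have h3 := congrArg Complex.re this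
    rw [Complex.ofReal_re] at h3
    rw [h3, Complex.re_sum]
    exact Finset.sum_congr rfl fun s _ => Complex.re_sum _ _
  rw [h2]
  simp only [h1, Finset.sum_add_distrib, Finset.sum_sub_distrib, Finset.sum_const,
    Finset.card_univ, nsmul_eq_mul, ← Finset.mul_sum]
  ring

theorem parseval_pairs {M : ℕ} [NeZero M] {ψ : AddChar (ZMod M) ℂ} (hψ : ψ.IsPrimitive)
    (Z : ZMod M → ℂ) :
    ∑ s, ∑ s', ‖Z s - Z s'‖ ^ 2
      = 2 * ∑ u ∈ Finset.univ.erase (0 : ZMod M), ‖∑ s, ψ (u * s) * Z s‖ ^ 2 := by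
  classical
  rw [sum_pairs, ZMod.card]
  have h1 := parseval hψ Z
  rw [← Finset.add_sum_erase _ _ (Finset.mem_univ (0 : ZMod M))] at h1
  simp only [zero_mul, AddChar.map_zero_eq_one, one_mul] at h1
  linarith

end Pool.Agent.H421Pyth
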