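import Mathlib
import Pool.Agent.H421Pyth.Gen
import Pool.Agent.H421Pyth.Cyc
import Pool.Agent.H421Pyth.Fourier

set_option autoImplicit false

namespace Pool.Agent.H421Pyth

open Finset Polynomial

/-- Graded case. -/
theorem caseA {L : Type*} [Field L] [NumberField L] {n M : ℕ} [NeZero n] [NeZero M]
    [IsCyclotomicExtension {n} ℚ L] {ζ : L} (hζ : IsPrimitiveRoot ζ n)
    (hMn : M ∣ n) (hrad : ∀ p, p.Prime → p ∣ n → p ∣ n / M)
    {N m : ℕ} (hN : 2 ≤ N) (a : Fin N → ℕ)
    (hb : Generic (fun i => ((2 * a i : ℕ) : ZMod M)))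
    (c : L ≃ₐ[ℚ] L) (hc1 : ∀ x : L, x ^ n = 1 → c x = x⁻¹)
    (hc2 : ∀ (φ : L →ₐ[ℚ] ℂ) (x : L), φ (c x) = starRingEnd ℂ (φ x))
    (y : Fin m → L) (hy : ∀ j, IsIntegral ℤ (y j)) (hcy : ∀ j, c (y j) = y j)
    (hsum : ∑ j, y j ^ 2 = ∑ i, (ζ ^ a i + (ζ ^ a i)⁻¹) ^ 2) : N ≤ m := by
  classical
  have hn : 0 < n := NeZero.pos n
  have hMn' : n = (n / M) * M := (Nat.div_mul_cancel hMn).symm
  set η : L := ζ ^ (n / M) with hη
  have hηp : IsPrimitiveRoot η M := hζ.pow hn hMn'
  set ψ : AddChar (ZMod M) L := AddChar.zmodChar M ((IsPrimitiveRoot.iff_def η M).mp hηp).left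
    with hψ
  have hψp : ψ.IsPrimitive := AddChar.zmodChar_primitive_of_primitive_root M hηp
  have hζk : ∀ k : ℕ, (ζ ^ k) ^ n = 1 := by
    intro k
    rw [← pow_mul, mul_comm, pow_mul, hζ.pow_eq_one, one_pow]
  have hψn : ∀ s, ψ s ^ n = 1 := by
    intro s
    rw [hψ, AddChar.zmodChar_apply, hη, ← pow_mul ζ]
    exact hζk _
  -- automorphisms
  have hcop : ∀ u : ZMod M, (1 + u.val * (n / M)).Coprime n := by
    intro u
    rw [Nat.coprime_iff_gcd_eq_one]
    by_contra hne
    obtain ⟨p, hp, hpd⟩ := Nat.exists_prime_and_dvd hne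
    have h1 : p ∣ 1 + u.val * (n / M) := hpd.trans (Nat.gcd_dvd_left _ _)
    have h2 : p ∣ n := hpd.trans (Nat.gcd_dvd_right _ _)
    have h3 : p ∣ u.val * (n / M) := (hrad p hp h2).mul_left _
    have h4 : p ∣ 1 := (Nat.dvd_add_left h3).mp h1
    exact hp.one_lt.ne' (Nat.dvd_one.mp h4)
  choose σ hσ using fun u : ZMod M => exists_aut (L := L) n (1 + u.val * (n / M)) (hcop u)
  have hσζ : ∀ u (k : ℕ), σ u (ζ ^ k) = ψ (u * (k : ZMod M)) * ζ ^ k := by
    intro u k
    have h1 : (ζ ^ k) ^ n = 1 := by rw [← pow_mul, mul_comm, pow_mul, hζ.pow_eq_one, one_pow]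
    rw [hσ u _ h1]
    have h2 : u * (k : ZMod M) = ((u.val * k : ℕ) : ZMod M) := by
      rw [Nat.cast_mul, ZMod.natCast_zmod_val]
    rw [h2, hψ, AddChar.zmodChar_apply', hη, ← pow_mul, ← pow_mul, ← pow_add]
    congr 1
    ring
  -- eigenvectors
  let Eig : ZMod M → L → Prop := fun s x => ∀ u, σ u x = ψ (u * s) * x
  have E0 : ∀ s, Eig s 0 := fun s u => by simp
  have Eadd : ∀ s x x', Eig s x → Eig s x' → Eig s (x + x') := fun s x x' h h' u => by
    rw [map_add, h u, h' u, mul_add]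
  have Esub : ∀ s x x', Eig s x → Eig s x' → Eig s (x - x') := fun s x x' h h' u => by
    rw [map_sub, h u, h' u, mul_sub]
  have Esum : ∀ {ι : Type} (S : Finset ι) s (f : ι → L), (∀ i ∈ S, Eig s (f i)) →
      Eig s (∑ i ∈ S, f i) := by
    intro ι S s f h u
    rw [map_sum, Finset.mul_sum]
    exact Finset.sum_congr rfl fun i hi => h i hi u
  have Emul : ∀ s t x x', Eig s x → Eig t x' → Eig (s + t) (x * x') := fun s t x x' h h' u => by
    rw [map_mul, h u, h' u, mul_add, AddChar.map_add_eq_mul]; ring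
  have Eint : ∀ z : ℤ, Eig 0 (z : L) := fun z u => by simp
  have Enat : ∀ z : ℕ, Eig 0 (z : L) := fun z u => by simp
  have Epow : ∀ k : ℕ, Eig (k : ZMod M) (ζ ^ k) := fun k u => hσζ u k
  have Ec : ∀ s x, Eig s x → Eig (-s) (c x) := by
    intro s x h u
    rw [aut_comm n (σ u) c, h u, map_mul, hc1 _ (hψn _), mul_neg, AddChar.map_neg_eq_inv]
  have huniq : ∀ Z : ZMod M → L, (∀ s, Eig s (Z s)) → ∑ s, Z s = 0 → ∀ s, Z s = 0 := by
    intro Z hZ h0
    apply fourier_inj hψp
    intro u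
    rw [← map_zero (σ u), ← h0, map_sum]
    exact Finset.sum_congr rfl fun s _ => (hZ s u).symm
  -- components
  have hcomp : ∀ j, ∃ Y : ZMod M → L, (∀ s, Eig s (Y s)) ∧ (∀ s, IsIntegral ℤ (Y s)) ∧
      ∑ s, Y s = y j := by
    intro j
    obtain ⟨f, hf⟩ := integral_eq_sum hζ (hy j)
    refine ⟨fun s => ∑ k ∈ f.support with ((k : ℕ) : ZMod M) = s, (f.coeff k : L) * ζ ^ k,
      ?_, ?_, ?_⟩
    · intro s
      apply Esum
      intro k hk
      rw [Finset.mem_filter] at hk
      have := Emul 0 _ _ _ (Eint (f.coeff k)) (Epow k)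
      rwa [zero_add, hk.2] at this
    · intro s
      apply IsIntegral.sum
      intro k _
      exact (isIntegral_algebraMap (R := ℤ) (x := f.coeff k)).mul ((hζ.isIntegral hn).pow k)
    · rw [hf]
      exact Finset.sum_fiberwise _ _ _
  choose Y hYE hYi hYs using hcomp
  -- the components of the right hand side
  set b : Fin N → ZMod M := fun i => ((2 * a i : ℕ) : ZMod M) with hbdef
  set x : Fin N → L := fun i => (ζ ^ a i) ^ 2 with hx
  set x' : Fin N → L := fun i => ((ζ ^ a i)⁻¹) ^ 2 with hx'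
  have hζ0 : ζ ≠ 0 := hζ.ne_zero hn.ne'
  have hxE : ∀ i, Eig (b i) (x i) := by
    intro i
    have := Epow (2 * a i)
    rw [hx, hbdef]
    convert this using 1
    change (ζ ^ a i) ^ 2 = ζ ^ (2 * a i)
    rw [← pow_mul, mul_comm]
  have hxE' : ∀ i, Eig (- b i) (x' i) := by
    intro i
    have h1 := Ec _ _ (hxE i)
    have h2 : c (x i) = x' i := by
      rw [hx, hx']
      simp only
      rw [map_pow, hc1 _ (hζk _)]
    rwa [h2] at h1
  have hAE : ∀ t, Eig t (Acomp b x x' t) := by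
    intro t
    unfold Acomp
    apply Eadd
    · split_ifs with h
      · have := Enat (2 * N)
        rw [h]
        push_cast at this
        exact this
      · exact E0 t
    · apply Esum
      intro i _
      apply Eadd
      · split_ifs with h
        · rw [h]; exact hxE i
        · exact E0 t
      · split_ifs with h
        · rw [h]; exact hxE' i
        · exact E0 t
  have hAs : ∑ t, Acomp b x x' t = ∑ i, (ζ ^ a i + (ζ ^ a i)⁻¹) ^ 2 := by
    have h1 := sum_Acomp b x x' (fun _ => 1)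
    simp only [mul_one] at h1
    rw [h1]
    have h2 : (2 * N : L) = ∑ i : Fin N, (2 : L) := by simp [mul_comm]
    rw [h2, ← Finset.sum_add_distrib]
    refine Finset.sum_congr rfl fun i _ => ?_
    rw [hx, hx']
    have : ζ ^ a i ≠ 0 := pow_ne_zero _ hζ0
    field_simp
    ring
  refine key2 c hc2 hN Y hYi ?_ hb x x' ?_ ?_
  · -- conjugation
    intro j s
    have h1 := huniq (fun s => c (Y j (-s)) - Y j s) ?_ ?_ (-s)
    · simp only [neg_neg] at h1
      exact sub_eq_zero.mp h1
    · intro s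
      apply Esub
      · have := Ec _ _ (hYE j (-s))
        rwa [neg_neg] at this
      · exact hYE j s
    · rw [Finset.sum_sub_distrib, hYs]
      have : ∑ s, c (Y j (-s)) = y j := by
        rw [← map_sum]
        have h3 : ∑ s, Y j (-s) = ∑ s, Y j s := Equiv.sum_comp (Equiv.neg (ZMod M)) (Y j)
        rw [h3, hYs, hcy]
      rw [this, sub_self]
  · intro i w hw
    refine root_ne_two_mul hn ?_ hw
    rw [hx]
    simp only
    rw [← pow_mul ζ (a i) 2]
    exact hζk _
  · -- convolution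
    intro t
    rw [← sub_eq_zero]
    apply huniq (fun t => ∑ j, ∑ s, Y j s * Y j (t - s) - Acomp b x x' t)
    · intro t
      apply Esub
      · apply Esum
        intro j _
        apply Esum
        intro s _
        have := Emul _ _ _ _ (hYE j s) (hYE j (t - s))
        rwa [add_sub_cancel] at this
      · exact hAE t
    · rw [Finset.sum_sub_distrib, hAs, ← hsum, sub_eq_zero, Finset.sum_comm]
      refine Finset.sum_congr rfl fun j _ => ?_
      rw [Finset.sum_comm, sq, ← hYs j, Finset.sum_mul_sum]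
      refine Finset.sum_congr rfl fun s _ => ?_
      rw [← Finset.mul_sum, ← Finset.mul_sum]
      congr 1
      exact Equiv.sum_comp (Equiv.subRight s) (Y j)

end Pool.Agent.H421Pyth
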