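import Mathlib
import Pool.Agent.H421Pyth.Gen
import Pool.Agent.H421Pyth.Cyc
import Pool.Agent.H421Pyth.Fourier

set_option autoImplicit false

namespace Pool.Agent.H421Pyth

open Finset Polynomial

/-- Pigeonhole: few unequal pairs force a popular value. -/
theorem popular {X : Type*} [DecidableEq X] {p : ℕ} [NeZero p] (B : ℕ) (f : ZMod p → X)
    (h : (Finset.univ.filter (fun q : ZMod p × ZMod p => f q.1 ≠ f q.2)).card ≤ B * p) :
    ∃ s0, (Finset.univ.filter (fun s : ZMod p => f s ≠ f s0)).card ≤ B := by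
  classical
  by_contra hcon
  push Not at hcon
  have h1 : (Finset.univ.filter (fun q : ZMod p × ZMod p => f q.1 ≠ f q.2)).card
      = ∑ s' : ZMod p, (Finset.univ.filter (fun s : ZMod p => f s ≠ f s')).card := by
    rw [Finset.card_filter, Fintype.sum_prod_type_right]
    exact Finset.sum_congr rfl fun s' _ => by rw [Finset.card_filter]
  have h2 : ∑ s' : ZMod p, (B + 1) ≤
      ∑ s' : ZMod p, (Finset.univ.filter (fun s : ZMod p => f s ≠ f s')).card :=
    Finset.sum_le_sum fun s' _ => hcon s'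
  rw [← h1] at h2
  simp only [Finset.sum_const, Finset.card_univ, ZMod.card, smul_eq_mul] at h2
  have h3 : 0 < p := NeZero.pos p
  nlinarith

theorem map_sum_pow_aux {L : Type*} [Field L] [NumberField L] (φ : L →ₐ[ℚ] ℂ) {m : ℕ}
    (y : Fin m → L) : φ (∑ j, y j ^ 2) = ∑ j, φ (y j) ^ 2 := by
  simp

/-- Prime case. -/
theorem caseB {L : Type*} [Field L] [NumberField L] {n p n' : ℕ} [NeZero n] [hp : Fact p.Prime]
    [IsCyclotomicExtension {n} ℚ L] {ζ : L} (hζ : IsPrimitiveRoot ζ n)
    (hnn : n = p * n') (hcop : p.Coprime n')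
    {N m : ℕ} (hN : 2 ≤ N) (ω : L) (hω : IsPrimitiveRoot ω p) (a : Fin N → ℕ)
    (hb : Generic (fun i => ((2 * a i : ℕ) : ZMod p)))
    (hplarge : 64 * N ^ 3 + 18 * N + 1 < p)
    (c : L ≃ₐ[ℚ] L) (hc1 : ∀ x : L, x ^ n = 1 → c x = x⁻¹)
    (hc2 : ∀ (φ : L →ₐ[ℚ] ℂ) (x : L), φ (c x) = starRingEnd ℂ (φ x))
    (y : Fin m → L) (hy : ∀ j, IsIntegral ℤ (y j)) (hcy : ∀ j, c (y j) = y j)
    (hsum : ∑ j, y j ^ 2 = ∑ i, (ω ^ a i + (ω ^ a i)⁻¹) ^ 2) : N ≤ m := by
  classical
  by_contra hmN
  rw [not_le] at hmN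
  have hn : 0 < n := NeZero.pos n
  have hp0 : 0 < p := hp.out.pos
  have hn'0 : 0 < n' := by
    rcases Nat.eq_zero_or_pos n' with h | h
    · rw [h, mul_zero] at hnn; omega
    · exact h
  have hωn : ∀ k : ℕ, (ω ^ k) ^ n = 1 := by
    intro k
    rw [hnn, pow_mul, ← pow_mul ω, mul_comm k p, pow_mul ω, hω.pow_eq_one, one_pow, one_pow]
  set ψ : AddChar (ZMod p) L := AddChar.zmodChar p ((IsPrimitiveRoot.iff_def ω p).mp hω).left
    with hψ
  have hψp : ψ.IsPrimitive := AddChar.zmodChar_primitive_of_primitive_root p hω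
  have hψk : ∀ k : ℕ, ψ (k : ZMod p) = ω ^ k := by
    intro k
    rw [hψ, AddChar.zmodChar_apply']
  have hψn : ∀ s, ψ s ^ n = 1 := by
    intro s
    rw [hψ, AddChar.zmodChar_apply]
    exact hωn _
  have hψsum : ∑ s, ψ s = 0 := by
    have h5 := AddChar.sum_mulShift (1 : ZMod p) hψp
    rw [if_neg one_ne_zero] at h5
    rw [← Nat.cast_zero, ← h5]
    exact Finset.sum_congr rfl fun s _ => by rw [mul_one]
  -- automorphisms
  have hσex : ∀ u : ZMod p, u ≠ 0 → ∃ σ : L ≃ₐ[ℚ] L, (∀ s, σ (ψ s) = ψ (u * s)) ∧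
      (∀ x : L, x ^ n' = 1 → σ x = x) := by
    intro u hu
    obtain ⟨v, hv1, hv2⟩ := Nat.chineseRemainder hcop u.val 1
    have hvc : v.Coprime n := by
      rw [hnn]
      apply Nat.Coprime.mul_right
      · have h1 : u.val.Coprime p := by
          have := ZMod.val_coe_unit_coprime (Units.mk0 u hu)
          simpa using this
        exact (Nat.ModEq.gcd_eq hv1).trans h1
      · exact (Nat.ModEq.gcd_eq hv2).trans (by simp)
    obtain ⟨σ, hσ⟩ := exists_aut (L := L) n v hvc
    refine ⟨σ, ?_, ?_⟩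
    · intro s
      rw [hσ _ (hψn s)]
      have h1 : u * s = ((s.val * v : ℕ) : ZMod p) := by
        rw [Nat.cast_mul, ZMod.natCast_zmod_val, (ZMod.natCast_eq_natCast_iff v u.val p).mpr hv1,
          ZMod.natCast_zmod_val, mul_comm]
      rw [h1, hψk, pow_mul, ← hψk, ZMod.natCast_zmod_val]
    · intro x hx
      have hxn : x ^ n = 1 := by rw [hnn, mul_comm, pow_mul, hx, one_pow]
      rw [hσ x hxn]
      have h1 : x ^ v = x ^ (v % n') := by
        conv_lhs => rw [← Nat.div_add_mod v n', pow_add, pow_mul, hx, one_pow, one_mul]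
      have h2 : x ^ 1 = x ^ (1 % n') := by
        conv_lhs => rw [← Nat.div_add_mod 1 n', pow_add, pow_mul, hx, one_pow, one_mul]
      rw [h1, hv2, ← h2, pow_one]
  choose! σ hσ1 hσ2 using hσex
  let Fixd : L → Prop := fun x => ∀ u, u ≠ 0 → σ u x = x
  have F0 : Fixd 0 := fun u _ => map_zero _
  have F1 : Fixd 1 := fun u _ => map_one _
  have Fadd : ∀ x x', Fixd x → Fixd x' → Fixd (x + x') := fun x x' h h' u hu => by
    rw [map_add, h u hu, h' u hu]
  have Fsub : ∀ x x', Fixd x → Fixd x' → Fixd (x - x') := fun x x' h h' u hu => by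
    rw [map_sub, h u hu, h' u hu]
  have Fmul : ∀ x x', Fixd x → Fixd x' → Fixd (x * x') := fun x x' h h' u hu => by
    rw [map_mul, h u hu, h' u hu]
  have Fsum : ∀ {ι : Type} (S : Finset ι) (f : ι → L), (∀ i ∈ S, Fixd (f i)) →
      Fixd (∑ i ∈ S, f i) := by
    intro ι S f h u hu
    rw [map_sum]
    exact Finset.sum_congr rfl fun i hi => h i hi u hu
  have Fint : ∀ z : ℤ, Fixd (z : L) := fun z u _ => by simp
  have Fnat : ∀ z : ℕ, Fixd (z : L) := fun z u _ => by simp
  have Fc : ∀ x, Fixd x → Fixd (c x) := by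
    intro x h u hu
    rw [aut_comm n (σ u) c, h u hu]
  -- uniqueness
  have hconst : ∀ Z : ZMod p → L, (∀ s, Fixd (Z s)) → ∑ s, ψ s * Z s = 0 →
      ∀ s s', Z s = Z s' := by
    intro Z hZ h0 s s'
    apply fourier_const hψp Z
    intro u hu
    have h1 : σ u (∑ s, ψ s * Z s) = ∑ s, ψ (u * s) * Z s := by
      rw [map_sum]
      refine Finset.sum_congr rfl fun s _ => ?_
      rw [map_mul, hσ1 u hu, hZ s u hu]
    rw [← h1, h0, map_zero]
  have huniq : ∀ Z : ZMod p → L, (∀ s, Fixd (Z s)) → ∑ s, ψ s * Z s = 0 →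
      (Finset.univ.filter (fun s => Z s ≠ 0)).card < p → ∀ s, Z s = 0 := by
    intro Z hZ h0 hcard s
    obtain ⟨s', hs'⟩ : ∃ s', Z s' = 0 := by
      by_contra hne
      push Not at hne
      rw [Finset.filter_true_of_mem (fun s _ => hne s), Finset.card_univ, ZMod.card] at hcard
      exact lt_irrefl _ hcard
    rw [hconst Z hZ h0 s s', hs']
  -- decomposition
  obtain ⟨v1, hv11, hv12⟩ := Nat.chineseRemainder hcop 1 0
  obtain ⟨v2, hv21, hv22⟩ := Nat.chineseRemainder hcop 0 1
  have hζv : ζ = ζ ^ v1 * ζ ^ v2 := by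
    have hmod : ∀ k : ℕ, ζ ^ k = ζ ^ (k % n) := by
      intro k
      conv_lhs => rw [← Nat.div_add_mod k n, pow_add, pow_mul, hζ.pow_eq_one, one_pow, one_mul]
    have h1 : v1 + v2 ≡ 1 [MOD n] := by
      rw [hnn, ← Nat.modEq_and_modEq_iff_modEq_mul hcop]
      exact ⟨by simpa using hv11.add hv21, by simpa using hv12.add hv22⟩
    rw [← pow_add, hmod (v1 + v2), h1, ← hmod 1, pow_one]
  obtain ⟨e, he, hee⟩ : ∃ e < p, ω ^ e = ζ ^ v1 := by
    apply hω.eq_pow_of_pow_eq_one
    rw [← pow_mul, hζ.pow_eq_one_iff_dvd, hnn, mul_comm]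
    exact Nat.mul_dvd_mul_right ((Nat.modEq_zero_iff_dvd).mp hv12) _
  set ζ'' : L := ζ ^ v2 with hζ''
  have hζ''1 : ∀ k : ℕ, (ζ'' ^ k) ^ n' = 1 := by
    intro k
    rw [hζ'', ← pow_mul, ← pow_mul, hζ.pow_eq_one_iff_dvd, hnn]
    exact Nat.mul_dvd_mul ((Nat.modEq_zero_iff_dvd).mp hv21) (Dvd.intro_left _ rfl)
  have hcomp : ∀ j, ∃ β : ZMod p → L, (∀ s, Fixd (β s)) ∧ (∀ s, IsIntegral ℤ (β s)) ∧
      ∑ s, ψ s * β s = y j := by
    intro j
    obtain ⟨f, hf⟩ := integral_eq_sum hζ (hy j)
    refine ⟨fun s => ∑ k ∈ f.support with ((e * k : ℕ) : ZMod p) = s,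
      (f.coeff k : L) * ζ'' ^ k, ?_, ?_, ?_⟩
    · intro s
      apply Fsum
      intro k hk
      apply Fmul _ _ (Fint _)
      intro u hu
      exact hσ2 u hu _ (hζ''1 k)
    · intro s
      apply IsIntegral.sum
      intro k _
      exact (isIntegral_algebraMap (R := ℤ) (x := f.coeff k)).mul
        (((hζ.isIntegral hn).pow v2).pow k)
    · rw [hf, ← Finset.sum_fiberwise (s := f.support) (g := fun k => ((e * k : ℕ) : ZMod p))]
      refine Finset.sum_congr rfl fun s _ => ?_
      rw [Finset.mul_sum]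
      refine Finset.sum_congr rfl fun k hk => ?_
      rw [Finset.mem_filter] at hk
      have h1 : ψ s = (ζ ^ v1) ^ k := by
        rw [← hk.2, hψk, ← hee, pow_mul]
      rw [h1]
      conv_rhs => rw [hζv, mul_pow]
      ring
  -- size of the y j
  have hsize : ∀ (φ : L →ₐ[ℚ] ℂ) j, ‖φ (y j)‖ ^ 2 ≤ 4 * N := by
    intro φ j
    have hreal : ∀ j, (starRingEnd ℂ) (φ (y j)) = φ (y j) := by
      intro j
      rw [← hc2, hcy]
    have h1 : ∀ j, ((‖φ (y j)‖ ^ 2 : ℝ) : ℂ) = φ (y j) ^ 2 := by
      intro j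
      rw [← Complex.normSq_eq_norm_sq, ← Complex.mul_conj, hreal, sq]
    have h2 : ((∑ j, ‖φ (y j)‖ ^ 2 : ℝ) : ℂ) = ∑ i, (φ (ω ^ a i) + (φ (ω ^ a i))⁻¹) ^ 2 := by
      push_cast
      simp only [← Complex.ofReal_pow, h1]
      rw [← map_sum_pow_aux φ y, hsum]
      simp
    have h3 : ∀ i, ‖φ (ω ^ a i)‖ = 1 := by
      intro i
      apply Complex.norm_eq_one_of_pow_eq_one _ hn.ne'
      rw [← map_pow, hωn, map_one]
    have h4 : ∑ j, ‖φ (y j)‖ ^ 2 ≤ 4 * N := by
      have h5 : ∑ j, ‖φ (y j)‖ ^ 2 = ‖((∑ j, ‖φ (y j)‖ ^ 2 : ℝ) : ℂ)‖ := by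
        rw [Complex.norm_real, Real.norm_of_nonneg]
        exact Finset.sum_nonneg fun _ _ => by positivity
      rw [h5, h2]
      calc ‖∑ i, (φ (ω ^ a i) + (φ (ω ^ a i))⁻¹) ^ 2‖
          ≤ ∑ i, ‖(φ (ω ^ a i) + (φ (ω ^ a i))⁻¹) ^ 2‖ := norm_sum_le _ _
        _ ≤ ∑ i : Fin N, (4 : ℝ) := by
            refine Finset.sum_le_sum fun i _ => ?_
            rw [norm_pow]
            have h6 : ‖φ (ω ^ a i) + (φ (ω ^ a i))⁻¹‖ ≤ 2 := by
              refine (norm_add_le _ _).trans ?_
              rw [norm_inv, h3]; norm_num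
            have h7 : 0 ≤ ‖φ (ω ^ a i) + (φ (ω ^ a i))⁻¹‖ := norm_nonneg _
            nlinarith
        _ = 4 * N := by simp [mul_comm]
    exact (Finset.single_le_sum (f := fun j => ‖φ (y j)‖ ^ 2)
      (fun _ _ => by positivity) (Finset.mem_univ j)).trans h4
  -- normalisation
  have hnorm : ∀ j, ∃ Y : ZMod p → L, (∀ s, Fixd (Y s)) ∧ (∀ s, IsIntegral ℤ (Y s)) ∧
      ∑ s, ψ s * Y s = y j ∧ (Finset.univ.filter (fun s => Y s ≠ 0)).card ≤ 8 * N := by
    intro j
    obtain ⟨β, hβF, hβi, hβs⟩ := hcomp j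
    have hpairs : (Finset.univ.filter
        (fun q : ZMod p × ZMod p => β q.1 ≠ β q.2)).card ≤ 8 * N * p := by
      have hd : (0 : ℝ) < Fintype.card (L →ₐ[ℚ] ℂ) := by
        have : Nonempty (L →ₐ[ℚ] ℂ) := ⟨IsAlgClosed.lift⟩
        exact_mod_cast Fintype.card_pos
      -- Parseval for each embedding
      have hpar : ∀ φ : L →ₐ[ℚ] ℂ, ∑ s, ∑ s', ‖φ (β s - β s')‖ ^ 2
          = 2 * ∑ u ∈ Finset.univ.erase (0 : ZMod p), ‖φ (σ u (y j))‖ ^ 2 := by
        intro φ
        have hφω : IsPrimitiveRoot (φ ω) p := hω.map_of_injective φ.injective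
        set ψφ : AddChar (ZMod p) ℂ :=
          AddChar.zmodChar p ((IsPrimitiveRoot.iff_def (φ ω) p).mp hφω).left with hψφ
        have hψφp : ψφ.IsPrimitive := AddChar.zmodChar_primitive_of_primitive_root p hφω
        have hψφs : ∀ s, φ (ψ s) = ψφ s := by
          intro s
          rw [hψφ, hψ, AddChar.zmodChar_apply, AddChar.zmodChar_apply, map_pow]
        have h1 := parseval_pairs hψφp (fun s => φ (β s))
        simp only [map_sub]
        rw [h1]
        congr 1
        refine Finset.sum_congr rfl fun u hu => ?_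
        have hu0 : u ≠ 0 := (Finset.mem_erase.mp hu).1
        congr 2
        rw [← hβs, map_sum, map_sum]
        refine Finset.sum_congr rfl fun s _ => ?_
        rw [map_mul (σ u), hσ1 u hu0, hβF s u hu0, map_mul φ, hψφs]
      have htot : ∑ s, ∑ s', TL (β s - β s')
          = 2 * ∑ u ∈ Finset.univ.erase (0 : ZMod p), TL (σ u (y j)) := by
        unfold TL
        calc ∑ s, ∑ s', ∑ φ : L →ₐ[ℚ] ℂ, ‖φ (β s - β s')‖ ^ 2
            = ∑ s, ∑ φ : L →ₐ[ℚ] ℂ, ∑ s', ‖φ (β s - β s')‖ ^ 2 :=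
              Finset.sum_congr rfl fun s _ => Finset.sum_comm
          _ = ∑ φ : L →ₐ[ℚ] ℂ, ∑ s, ∑ s', ‖φ (β s - β s')‖ ^ 2 := Finset.sum_comm
          _ = ∑ φ : L →ₐ[ℚ] ℂ, 2 * ∑ u ∈ Finset.univ.erase (0 : ZMod p),
                ‖φ (σ u (y j))‖ ^ 2 := Finset.sum_congr rfl fun φ _ => hpar φ
          _ = 2 * ∑ u ∈ Finset.univ.erase (0 : ZMod p), ∑ φ : L →ₐ[ℚ] ℂ,
                ‖φ (σ u (y j))‖ ^ 2 := by
              rw [← Finset.mul_sum, Finset.sum_comm]
      have hTLy : TL (y j) ≤ 4 * N * Fintype.card (L →ₐ[ℚ] ℂ) := by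
        unfold TL
        calc ∑ φ : L →ₐ[ℚ] ℂ, ‖φ (y j)‖ ^ 2 ≤ ∑ φ : L →ₐ[ℚ] ℂ, (4 * N : ℝ) :=
              Finset.sum_le_sum fun φ _ => hsize φ j
          _ = 4 * N * Fintype.card (L →ₐ[ℚ] ℂ) := by
              simp [mul_comm]
      have hup : ∑ s, ∑ s', TL (β s - β s') ≤ 8 * N * p * Fintype.card (L →ₐ[ℚ] ℂ) := by
        rw [htot]
        simp only [TL_aut]
        rw [Finset.sum_const, Finset.card_erase_of_mem (Finset.mem_univ _), Finset.card_univ,
          ZMod.card, nsmul_eq_mul]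
        have h2 : ((p - 1 : ℕ) : ℝ) ≤ p := by exact_mod_cast Nat.sub_le p 1
        have h3 : 0 ≤ TL (y j) := TL_nonneg _
        calc 2 * (((p - 1 : ℕ) : ℝ) * TL (y j)) ≤ 2 * (p * (4 * N * Fintype.card (L →ₐ[ℚ] ℂ))) := by
              gcongr
          _ = 8 * N * p * Fintype.card (L →ₐ[ℚ] ℂ) := by ring
      have hlow : ((Finset.univ.filter
          (fun q : ZMod p × ZMod p => β q.1 ≠ β q.2)).card : ℝ) * Fintype.card (L →ₐ[ℚ] ℂ)
          ≤ ∑ s, ∑ s', TL (β s - β s') := by
        rw [← Fintype.sum_prod_type']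
        calc ((Finset.univ.filter
          (fun q : ZMod p × ZMod p => β q.1 ≠ β q.2)).card : ℝ) * Fintype.card (L →ₐ[ℚ] ℂ)
            = ∑ q ∈ Finset.univ.filter (fun q : ZMod p × ZMod p => β q.1 ≠ β q.2),
                (Fintype.card (L →ₐ[ℚ] ℂ) : ℝ) := by simp
          _ ≤ ∑ q ∈ Finset.univ.filter (fun q : ZMod p × ZMod p => β q.1 ≠ β q.2),
                TL (β q.1 - β q.2) := by
              refine Finset.sum_le_sum fun q hq => ?_
              rw [Finset.mem_filter] at hq
              exact TL_ge (sub_ne_zero.mpr hq.2) ((hβi _).sub (hβi _))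
          _ ≤ ∑ q : ZMod p × ZMod p, TL (β q.1 - β q.2) :=
              Finset.sum_le_sum_of_subset_of_nonneg (Finset.subset_univ _)
                fun _ _ _ => TL_nonneg _
      have h4 := le_of_mul_le_mul_right (hlow.trans hup) hd
      exact_mod_cast h4
    obtain ⟨s0, hs0⟩ := popular (8 * N) β hpairs
    refine ⟨fun s => β s - β s0, fun s => Fsub _ _ (hβF s) (hβF s0),
      fun s => (hβi s).sub (hβi s0), ?_, ?_⟩
    · simp only [mul_sub, Finset.sum_sub_distrib]
      rw [hβs, ← Finset.sum_mul, hψsum, zero_mul, sub_zero]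
    · convert hs0 using 2
      ext s
      simp [sub_ne_zero]
  choose Y hYF hYi hYs hYc using hnorm
  set b : Fin N → ZMod p := fun i => ((2 * a i : ℕ) : ZMod p) with hbdef
  have hω0 : ω ≠ 0 := hω.ne_zero hp0.ne'
  refine absurd (key2 c hc2 hN Y hYi ?_ hb (fun _ => 1) (fun _ => 1) ?_ ?_) (not_le.mpr hmN)
  · -- conjugation
    intro j s
    have h1 := huniq (fun s => c (Y j (-s)) - Y j s) ?_ ?_ ?_ (-s)
    · simp only [neg_neg] at h1
      exact sub_eq_zero.mp h1
    · intro s
      exact Fsub _ _ (Fc _ (hYF j _)) (hYF j s)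
    · simp only [mul_sub, Finset.sum_sub_distrib]
      rw [hYs]
      have h3 : ∑ s, ψ s * c (Y j (-s)) = ∑ s, ψ (-s) * c (Y j s) := by
        rw [← Equiv.sum_comp (Equiv.neg (ZMod p)) (fun s => ψ (-s) * c (Y j s))]
        simp
      have h4 : ∑ s, ψ (-s) * c (Y j s) = c (y j) := by
        rw [← hYs, map_sum]
        refine Finset.sum_congr rfl fun s _ => ?_
        rw [map_mul, hc1 _ (hψn s), AddChar.map_neg_eq_inv]
      rw [h3, h4, hcy, sub_self]
    · have hsub : (Finset.univ.filter (fun s => c (Y j (-s)) - Y j s ≠ 0)) ⊆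
          ((Finset.univ.filter (fun s => Y j s ≠ 0)).image (fun s => -s))
            ∪ (Finset.univ.filter (fun s => Y j s ≠ 0)) := by
        intro s hs
        rw [Finset.mem_filter] at hs
        rw [Finset.mem_union, Finset.mem_image, Finset.mem_filter]
        by_cases h5 : Y j s = 0
        · left
          refine ⟨-s, ?_, neg_neg s⟩
          rw [Finset.mem_filter]
          refine ⟨Finset.mem_univ _, ?_⟩
          intro h6
          apply hs.2
          rw [h6, h5, map_zero, sub_zero]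
        · right
          exact ⟨Finset.mem_univ _, h5⟩
      have h7 := (Finset.card_le_card hsub).trans (Finset.card_union_le _ _)
      have h8 := Finset.card_image_le (s := Finset.univ.filter (fun s => Y j s ≠ 0))
        (f := fun s : ZMod p => -s)
      have h9 := hYc j
      have h10 : 0 ≤ N ^ 3 := Nat.zero_le _
      omega
  · intro i w hw
    exact root_ne_two_mul (n := 1) Nat.one_pos (by simp) hw
  · -- convolution
    have hAcompsupp : (Finset.univ.filter
        (fun t => Acomp b (fun _ => (1 : L)) (fun _ => 1) t ≠ 0)).card ≤ 2 * N + 1 := by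
      have hsub : (Finset.univ.filter (fun t => Acomp b (fun _ => (1 : L)) (fun _ => 1) t ≠ 0)) ⊆
          insert 0 ((Finset.univ.image b) ∪ (Finset.univ.image (fun i => - b i))) := by
        intro t ht
        rw [Finset.mem_filter] at ht
        by_contra hcon
        simp only [Finset.mem_insert, Finset.mem_union, Finset.mem_image, Finset.mem_univ,
          true_and, not_or, not_exists] at hcon
        exact ht.2 (Acomp_other _ _ t hcon.1 (fun i h => hcon.2.1 i h.symm)
          (fun i h => hcon.2.2 i h.symm))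
      have h1 := (Finset.card_le_card hsub).trans (Finset.card_insert_le _ _)
      have h2 := Finset.card_union_le (Finset.univ.image b) (Finset.univ.image (fun i => - b i))
      have h3 : (Finset.univ.image b).card ≤ N := by
        simpa using Finset.card_image_le (s := (Finset.univ : Finset (Fin N))) (f := b)
      have h4 : (Finset.univ.image (fun i => - b i)).card ≤ N := by
        simpa using Finset.card_image_le (s := (Finset.univ : Finset (Fin N)))
          (f := fun i => - b i)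
      omega
    have hconvsupp : (Finset.univ.filter
        (fun t => ∑ j, ∑ s, Y j s * Y j (t - s) ≠ 0)).card ≤ m * ((8 * N) * (8 * N)) := by
      have hsub : (Finset.univ.filter (fun t => ∑ j, ∑ s, Y j s * Y j (t - s) ≠ 0)) ⊆
          Finset.univ.biUnion (fun j : Fin m =>
            ((Finset.univ.filter (fun s => Y j s ≠ 0)) ×ˢ
              (Finset.univ.filter (fun s => Y j s ≠ 0))).image (fun q => q.1 + q.2)) := by
        intro t ht
        rw [Finset.mem_filter] at ht
        obtain ⟨j, _, hj⟩ := Finset.exists_ne_zero_of_sum_ne_zero ht.2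
        obtain ⟨s, _, hs⟩ := Finset.exists_ne_zero_of_sum_ne_zero hj
        rw [Finset.mem_biUnion]
        refine ⟨j, Finset.mem_univ _, ?_⟩
        rw [Finset.mem_image]
        refine ⟨(s, t - s), ?_, by ring⟩
        rw [Finset.mem_product, Finset.mem_filter, Finset.mem_filter]
        exact ⟨⟨Finset.mem_univ _, left_ne_zero_of_mul hs⟩,
          ⟨Finset.mem_univ _, right_ne_zero_of_mul hs⟩⟩
      refine (Finset.card_le_card hsub).trans (Finset.card_biUnion_le.trans ?_)
      calc ∑ j : Fin m, (((Finset.univ.filter (fun s => Y j s ≠ 0)) ×ˢ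
              (Finset.univ.filter (fun s => Y j s ≠ 0))).image (fun q => q.1 + q.2)).card
          ≤ ∑ j : Fin m, (8 * N) * (8 * N) := by
            refine Finset.sum_le_sum fun j _ => ?_
            refine Finset.card_image_le.trans ?_
            rw [Finset.card_product]
            exact Nat.mul_le_mul (hYc j) (hYc j)
        _ = m * ((8 * N) * (8 * N)) := by simp
    intro t
    rw [← sub_eq_zero]
    apply huniq (fun t => ∑ j, ∑ s, Y j s * Y j (t - s) - Acomp b (fun _ => 1) (fun _ => 1) t)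
    · intro t
      apply Fsub
      · apply Fsum
        intro j _
        apply Fsum
        intro s _
        exact Fmul _ _ (hYF j s) (hYF j (t - s))
      · unfold Acomp
        apply Fadd
        · split_ifs
          · have := Fnat (2 * N)
            push_cast at this
            exact this
          · exact F0
        · apply Fsum
          intro i _
          apply Fadd <;> split_ifs <;> first | exact F1 | exact F0
    · simp only [mul_sub, Finset.sum_sub_distrib]
      have h1 : ∑ t, ψ t * Acomp b (fun _ => 1) (fun _ => 1) t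
          = ∑ i, (ω ^ a i + (ω ^ a i)⁻¹) ^ 2 := by
        have h2 := sum_Acomp b (fun _ => (1 : L)) (fun _ => 1) (fun t => ψ t)
        simp only [one_mul, AddChar.map_zero_eq_one, mul_one] at h2
        rw [Finset.sum_congr rfl fun t _ => mul_comm _ _, h2]
        have h3 : (2 * N : L) = ∑ i : Fin N, (2 : L) := by simp [mul_comm]
        rw [h3, ← Finset.sum_add_distrib]
        refine Finset.sum_congr rfl fun i _ => ?_
        rw [AddChar.map_neg_eq_inv]
        have h4 : ψ (b i) = (ω ^ a i) ^ 2 := by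
          rw [hbdef]
          simp only
          rw [hψk, ← pow_mul, mul_comm]
        rw [h4]
        have : ω ^ a i ≠ 0 := pow_ne_zero _ hω0
        field_simp
        ring
      have h5 : ∑ t, ψ t * ∑ j, ∑ s, Y j s * Y j (t - s) = ∑ j, y j ^ 2 := by
        simp only [Finset.mul_sum]
        rw [Finset.sum_comm]
        refine Finset.sum_congr rfl fun j _ => ?_
        rw [Finset.sum_comm, sq, ← hYs j, Finset.sum_mul_sum]
        refine Finset.sum_congr rfl fun s _ => ?_
        rw [← Equiv.sum_comp (Equiv.subRight s) (fun t => ψ s * Y j s * (ψ t * Y j t))]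
        refine Finset.sum_congr rfl fun t _ => ?_
        simp only [Equiv.subRight_apply]
        have h6 : ψ t = ψ s * ψ (t - s) := by
          rw [← AddChar.map_add_eq_mul]; congr 1; ring
        rw [h6]; ring
      rw [h1, h5, hsum, sub_self]
    · have hsub : (Finset.univ.filter (fun t => ∑ j, ∑ s, Y j s * Y j (t - s)
          - Acomp b (fun _ => (1 : L)) (fun _ => 1) t ≠ 0)) ⊆
          (Finset.univ.filter (fun t => ∑ j, ∑ s, Y j s * Y j (t - s) ≠ 0)) ∪
          (Finset.univ.filter (fun t => Acomp b (fun _ => (1 : L)) (fun _ => 1) t ≠ 0)) := by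
        intro t ht
        rw [Finset.mem_filter] at ht
        rw [Finset.mem_union, Finset.mem_filter, Finset.mem_filter]
        by_cases h5 : Acomp b (fun _ => (1 : L)) (fun _ => 1) t = 0
        · left
          refine ⟨Finset.mem_univ _, fun h6 => ht.2 ?_⟩
          rw [h5, h6, sub_zero]
        · right
          exact ⟨Finset.mem_univ _, h5⟩
      have h7 := (Finset.card_le_card hsub).trans (Finset.card_union_le _ _)
      have h8 : m * ((8 * N) * (8 * N)) ≤ 64 * N ^ 3 := by
        calc m * ((8 * N) * (8 * N)) ≤ N * ((8 * N) * (8 * N)) :=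
              Nat.mul_le_mul_right _ hmN.le
          _ = 64 * N ^ 3 := by ring
      omega

end Pool.Agent.H421Pyth
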