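import Mathlib
import Pool.Agent.H421Pyth.Arith
import Pool.Agent.H421Pyth.CaseA
import Pool.Agent.H421Pyth.CaseB

set_option autoImplicit false

namespace Pool.Agent.H421Pyth

open Finset IntermediateField

/-- The standard primitive `n`-th root of unity. -/
noncomputable def zt (n : ℕ) : ℂ := Complex.exp (2 * Real.pi * Complex.I / n)

theorem zt_prim {n : ℕ} (hn : n ≠ 0) : IsPrimitiveRoot (zt n) n := Complex.isPrimitiveRoot_exp n hn

theorem zt_pow {n n' : ℕ} (hn' : n' ≠ 0) (h : n ∣ n') : zt n' ^ (n' / n) = zt n := by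
  obtain ⟨k, rfl⟩ := h
  have hn : n ≠ 0 := left_ne_zero_of_mul hn'
  have hk : k ≠ 0 := right_ne_zero_of_mul hn'
  rw [Nat.mul_div_cancel_left k (Nat.pos_of_ne_zero hn)]
  unfold zt
  rw [← Complex.exp_nat_mul]
  congr 1
  push_cast
  have h1 : (n : ℂ) ≠ 0 := by exact_mod_cast hn
  have h2 : (k : ℂ) ≠ 0 := by exact_mod_cast hk
  field_simp

/-- The `n`-th cyclotomic field inside `ℂ`. -/
noncomputable abbrev CF (n : ℕ) : IntermediateField ℚ ℂ := IntermediateField.adjoin ℚ {zt n}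

theorem CF_mono {n n' : ℕ} (hn' : n' ≠ 0) (h : n ∣ n') : CF n ≤ CF n' := by
  rw [IntermediateField.adjoin_le_iff, Set.singleton_subset_iff]
  rw [SetLike.mem_coe, ← zt_pow hn' h]
  exact pow_mem (IntermediateField.mem_adjoin_simple_self ℚ _) _

theorem CF_cyc {n : ℕ} [NeZero n] : IsCyclotomicExtension {n} ℚ (CF n) := by
  have hζ := zt_prim (NeZero.ne n)
  have hint : IsIntegral ℚ (zt n) := (hζ.isIntegral (NeZero.pos n)).tower_top
  have halg : IsAlgebraic ℚ (zt n) := hint.isAlgebraic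
  change IsCyclotomicExtension {n} ℚ (CF n).toSubalgebra
  rw [IntermediateField.adjoin_simple_toSubalgebra_of_isAlgebraic halg]
  exact hζ.adjoin_isCyclotomicExtension ℚ

/-- Algebraic statement inside one cyclotomic field. -/
theorem main_field {n : ℕ} (hn : n ≠ 0) {m N : ℕ} (g : Fin m → ℂ) (hg : ∀ j, g j ∈ CF n)
    (hgi : ∀ j, IsIntegral ℤ (g j)) (hgc : ∀ j, (starRingEnd ℂ) (g j) = g j)
    {n₀ : ℕ} (hn₀ : n₀ ∣ n) (d : ℕ)
    (hsum : ∑ j, g j ^ 2 = ∑ i : Fin N, ((zt n₀ ^ d) ^ 4 ^ (i : ℕ) + ((zt n₀ ^ d) ^ 4 ^ (i : ℕ))⁻¹) ^ 2)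
    (hN : 2 ≤ N)
    (hcase : (d = 1 ∧ 2 * 4 ^ N < n₀ / R n₀) ∨
      ∃ p, p.Prime ∧ p ∣ n₀ ∧ d = n₀ / p ∧ ¬ p ∣ n / p ∧ 2 * 4 ^ N < p ∧
        64 * N ^ 3 + 18 * N + 1 < p) : N ≤ m := by
  have : NeZero n := ⟨hn⟩
  have : IsCyclotomicExtension {n} ℚ (CF n) := CF_cyc
  have : NumberField (CF n) := IsCyclotomicExtension.numberField {n} ℚ (CF n)
  have hn₀0 : n₀ ≠ 0 := fun h0 => hn (by rw [h0] at hn₀; exact Nat.eq_zero_of_zero_dvd hn₀)
  set ζ : CF n := ⟨zt n, IntermediateField.mem_adjoin_simple_self ℚ _⟩ with hζdef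
  have hζ : IsPrimitiveRoot ζ n := by
    have h1 := zt_prim hn
    exact IsPrimitiveRoot.of_map_of_injective (f := (CF n).val) (by exact h1) (CF n).val.injective
  obtain ⟨c, hc1, hc2, hc3⟩ := exists_conj hζ
  set ι : CF n →+* ℂ := (CF n).val.toRingHom with hι
  have hιinj : Function.Injective ι := ι.injective
  have hιg : ∀ x, ι x = (x : ℂ) := fun x => rfl
  set y : Fin m → CF n := fun j => ⟨g j, hg j⟩ with hydef
  have hy : ∀ j, IsIntegral ℤ (y j) := by
    intro j
    have h1 : IsIntegral ℤ ((CF n).val (y j)) := hgi j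
    exact (isIntegral_algHom_iff ((CF n).val.restrictScalars ℤ) (CF n).val.injective).mp h1
  have hcy : ∀ j, c (y j) = y j := by
    intro j
    apply hιinj
    rw [hc3]
    exact hgc j
  have hζ0 : zt n₀ = (ι ζ) ^ (n / n₀) := (zt_pow hn hn₀).symm
  have h1 : ∀ j, ι (y j) = g j := fun j => rfl
  rcases hcase with ⟨hd, hlarge⟩ | ⟨p, hp, hpn₀, hd, hpn, hlarge1, hlarge2⟩
  · -- graded case
    subst hd
    have hRn := R_dvd n
    set M := n / R n with hM
    have hMpos : 0 < M := Nat.div_pos (Nat.le_of_dvd (Nat.pos_of_ne_zero hn) hRn) (R_pos n)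
    have : NeZero M := ⟨hMpos.ne'⟩
    have hMn : M ∣ n := Nat.div_dvd_of_dvd hRn
    have hnM : n / M = R n := Nat.div_div_self hRn hn
    refine caseA hζ hMn (fun p hp hpd => by rw [hnM]; exact dvd_R hn hp hpd) hN
      (fun i => (n / n₀) * 4 ^ (i : ℕ)) ?_ c hc1 hc2 y hy hcy ?_
    · apply generic_pow4
      intro X hX hdvd
      by_contra hX0
      have h1' : M ∣ (n / n₀) * (2 * X.natAbs) := by
        have h2 : (M : ℤ) ∣ (((n / n₀) * (2 * X.natAbs) : ℕ) : ℤ) := by
          rw [Nat.cast_mul, Nat.cast_mul, Int.natCast_natAbs, Nat.cast_ofNat]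
          have h3 : ((n / n₀ : ℕ) : ℤ) * (2 * |X|) = |2 * ((n / n₀ : ℕ) : ℤ) * X| := by
            rw [abs_mul, abs_mul, abs_two, Nat.abs_cast]; ring
          rw [h3, dvd_abs]
          exact hdvd
        exact_mod_cast h2
      have h4 := M_dvd_aux hn hn₀ h1'
      have h5 : 0 < 2 * X.natAbs := by
        have := Int.natAbs_pos.mpr hX0
        omega
      have h6 := Nat.le_of_dvd h5 h4
      have h7 : X.natAbs ≤ 4 ^ N := by
        have : (X.natAbs : ℤ) ≤ 4 ^ N := by rw [← Int.abs_eq_natAbs]; exact hX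
        exact_mod_cast this
      omega
    · apply hιinj
      simp only [map_sum, map_pow, map_add, map_inv₀, h1]
      rw [hsum]
      refine Finset.sum_congr rfl fun i _ => ?_
      rw [hζ0, pow_one, pow_mul]
  · -- prime case
    have : Fact p.Prime := ⟨hp⟩
    have hpn' : p ∣ n := hpn₀.trans hn₀
    have hnn : n = p * (n / p) := (Nat.mul_div_cancel' hpn').symm
    have hcop : p.Coprime (n / p) := (hp.coprime_iff_not_dvd).mpr hpn
    have hωp : IsPrimitiveRoot (ζ ^ (n / p)) p := hζ.pow (Nat.pos_of_ne_zero hn) (by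
      rw [mul_comm]; exact hnn)
    refine caseB hζ hnn hcop hN (ζ ^ (n / p)) hωp (fun i => 1 * 4 ^ (i : ℕ)) ?_ hlarge2
      c hc1 hc2 y hy hcy ?_
    · apply generic_pow4
      intro X hX hdvd
      by_contra hX0
      have h2 : (p : ℤ) ∣ 2 * X := by simpa using hdvd
      have h3 := Int.le_of_dvd (a := (p : ℤ)) (b := |2 * X|) (by
        rw [abs_pos]; omega) ((dvd_abs _ _).mpr h2)
      rw [abs_mul, abs_two] at h3
      have h4 : ((2 * 4 ^ N : ℕ) : ℤ) < p := by exact_mod_cast hlarge1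
      push_cast at h4
      linarith
    · apply hιinj
      simp only [map_sum, map_pow, map_add, map_inv₀, h1]
      rw [hsum]
      refine Finset.sum_congr rfl fun i _ => ?_
      have h2 : zt n₀ ^ d = ι ζ ^ (n / p) := by
        rw [hζ0, ← pow_mul, hd]
        congr 1
        obtain ⟨k, hk⟩ := hn₀
        obtain ⟨l, hl⟩ := hpn₀
        have hn₀pos := Nat.pos_of_ne_zero hn₀0
        have h3 : n / n₀ = k := by rw [hk, Nat.mul_div_cancel_left _ hn₀pos]
        have h4 : n₀ / p = l := by rw [hl, Nat.mul_div_cancel_left _ hp.pos]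
        have h5 : n / p = l * k := by
          rw [hk, hl, mul_assoc, Nat.mul_div_cancel_left _ hp.pos]
        rw [h3, h4, h5, mul_comm]
      rw [h2, one_mul]

end Pool.Agent.H421Pyth
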